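import Mathlib

/-!
Closure under countably many binary operations, and projections in reflexive spaces built from
mutually norming pairs of sets.
-/

set_option autoImplicit false

namespace Pool.Agent.P.MP_16d9f2_an

open Set Cardinal

section Hull

variable {I T : Type}

/-- One step of the closure. -/
def step (op : I → T → T → T) (S : Set T) : Set T := S ∪ ⋃ i, image2 (op i) S S

/-- The closure of a set under a family of binary operations. -/
def hull (op : I → T → T → T) (S : Set T) : Set T := ⋃ n : ℕ, (step op)^[n] S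

lemma subset_step (op : I → T → T → T) (S : Set T) : S ⊆ step op S := subset_union_left

lemma iter_mono (op : I → T → T → T) (S : Set T) : Monotone fun n : ℕ => (step op)^[n] S := by
  refine monotone_nat_of_le_succ fun n => ?_
  rw [Function.iterate_succ_apply']
  exact subset_step op _

lemma subset_hull (op : I → T → T → T) (S : Set T) : S ⊆ hull op S :=
  subset_iUnion (fun n : ℕ => (step op)^[n] S) 0

lemma op_mem_hull (op : I → T → T → T) (S : Set T) (i : I) {a b : T} (ha : a ∈ hull op S)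
    (hb : b ∈ hull op S) : op i a b ∈ hull op S := by
  obtain ⟨n, hn⟩ := mem_iUnion.1 ha
  obtain ⟨m, hm⟩ := mem_iUnion.1 hb
  refine mem_iUnion.2 ⟨max n m + 1, ?_⟩
  rw [Function.iterate_succ_apply']
  exact Or.inr (mem_iUnion.2 ⟨i, mem_image2_of_mem (iter_mono op S (le_max_left n m) hn)
    (iter_mono op S (le_max_right n m) hm)⟩)

lemma hull_subset (op : I → T → T → T) {S N : Set T} (hS : S ⊆ N)
    (hN : ∀ i, ∀ a ∈ N, ∀ b ∈ N, op i a b ∈ N) : hull op S ⊆ N := by
  refine iUnion_subset fun n => ?_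
  induction n with
  | zero => exact hS
  | succ n ih =>
    rw [Function.iterate_succ_apply']
    refine union_subset ih (iUnion_subset fun i => ?_)
    rintro _ ⟨a, ha, b, hb, rfl⟩
    exact hN i a (ih ha) b (ih hb)

lemma hull_mono (op : I → T → T → T) {S S' : Set T} (h : S ⊆ S') : hull op S ⊆ hull op S' :=
  hull_subset op (h.trans (subset_hull op S')) fun i _ ha _ hb => op_mem_hull op S' i ha hb

lemma mk_hull_le [Countable I] (op : I → T → T → T) (S : Set T) (κ : Cardinal) (hκ : ℵ₀ ≤ κ)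
    (hS : #S ≤ κ) : #(hull op S) ≤ κ := by
  have hstep : ∀ U : Set T, #U ≤ κ → #(step op U) ≤ κ := by
    intro U hU
    refine (mk_union_le _ _).trans ?_
    refine add_le_of_le hκ hU ?_
    refine mk_iUnion_le_sum_mk.trans ?_
    refine (sum_le_sum _ (fun _ => κ) fun i => ?_).trans ?_
    · refine mk_image2_le.trans ?_
      exact (mul_le_mul' hU hU).trans (mul_eq_self hκ).le
    · rw [sum_const']
      exact (mul_le_mul' (mk_le_aleph0.trans hκ) le_rfl).trans (mul_eq_self hκ).le
  have hn : ∀ n : ℕ, #((step op)^[n] S) ≤ κ := by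
    intro n
    induction n with
    | zero => exact hS
    | succ n ih =>
      rw [Function.iterate_succ_apply']
      exact hstep _ ih
  refine mk_iUnion_le_sum_mk.trans ?_
  refine (sum_le_sum _ (fun _ => κ) hn).trans ?_
  rw [sum_const']
  exact (mul_le_mul' (mk_le_aleph0.trans hκ) le_rfl).trans (mul_eq_self hκ).le

end Hull

section Proj

/-- A set closed under rational linear combinations. -/
def QClosed {V : Type*} [NormedAddCommGroup V] [NormedSpace ℝ V] (A : Set V) : Prop :=
  0 ∈ A ∧ ∀ q : ℚ, ∀ x ∈ A, ∀ y ∈ A, (q : ℝ) • x + y ∈ A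

/-- The closure of a set closed under rational linear combinations, as a submodule. -/
def clo {V : Type*} [NormedAddCommGroup V] [NormedSpace ℝ V] (A : Set V) (hA : QClosed A) :
    Submodule ℝ V where
  carrier := closure A
  zero_mem' := subset_closure hA.1
  add_mem' := by
    intro a b ha hb
    refine map_mem_closure₂ (f := fun x y : V => x + y) continuous_add ha hb fun x hx y hy => ?_
    simpa using hA.2 1 x hx y hy
  smul_mem' := by
    intro r x hx
    have hr : r ∈ closure (range ((↑) : ℚ → ℝ)) := Rat.denseRange_cast r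
    refine map_mem_closure₂ (f := fun (r : ℝ) (x : V) => r • x) continuous_smul hr hx ?_
    rintro _ ⟨q, rfl⟩ y hy
    simpa using hA.2 q y hy 0 hA.1

lemma exists_annihilator {V : Type*} [NormedAddCommGroup V] [NormedSpace ℝ V]
    (p : Submodule ℝ V) (hp : IsClosed (p : Set V)) {x : V} (hx : x ∉ p) :
    ∃ φ : StrongDual ℝ V, (∀ y ∈ p, φ y = 0) ∧ φ x ≠ 0 := by
  obtain ⟨φ, u, h1, h2⟩ := geometric_hahn_banach_closed_point p.convex hp hx
  have h0 : 0 < u := by simpa using h1 0 p.zero_mem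
  refine ⟨φ, fun y hy => ?_, by linarith⟩
  by_contra hy0
  have := h1 ((u / φ y) • y) (p.smul_mem _ hy)
  rw [map_smul, smul_eq_mul, div_mul_cancel₀ _ hy0] at this
  exact lt_irrefl _ this

variable {X : Type*} [NormedAddCommGroup X] [NormedSpace ℝ X]

/-- In a reflexive space a functional killing the common kernel of `B` is in the closure of `B`. -/
lemma mem_closure_of_kills (hX : Function.Surjective (NormedSpace.inclusionInDoubleDual ℝ X))
    {B : Set (StrongDual ℝ X)} (hB : QClosed B) (φ : StrongDual ℝ X)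
    (hφ : ∀ w, (∀ ψ ∈ B, ψ w = 0) → φ w = 0) : φ ∈ closure B := by
  by_contra h
  obtain ⟨Ξ, h1, h2⟩ := exists_annihilator (clo B hB) isClosed_closure h
  obtain ⟨x, rfl⟩ := hX Ξ
  exact h2 (hφ x fun ψ hψ => h1 ψ (subset_closure hψ))

lemma exists_proj [CompleteSpace X]
    (hX : Function.Surjective (NormedSpace.inclusionInDoubleDual ℝ X))
    {A : Set X} {B : Set (StrongDual ℝ X)} (hA : QClosed A) (hB : QClosed B) (K : ℝ) (hK : 0 ≤ K)
    (h1 : ∀ x ∈ A, ∃ φ ∈ B, ‖φ‖ ≤ K ∧ ‖x‖ ≤ φ x)
    (h2 : ∀ φ ∈ B, ∃ x ∈ A, ‖x‖ ≤ K ∧ ‖φ‖ ≤ 2 * φ x) :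
    ∃ P : X →L[ℝ] X, (∀ x, P x ∈ closure A) ∧ (∀ x, ∀ φ ∈ B, φ (P x) = φ x) ∧
      (∀ y ∈ closure A, P y = y) ∧ (∀ w, (∀ φ ∈ B, φ w = 0) → P w = 0) := by
  let Y : Submodule ℝ X := clo A hA
  let W : Submodule ℝ X := ⨅ φ ∈ B, LinearMap.ker (φ : X →ₗ[ℝ] ℝ)
  have hW : ∀ w, w ∈ W ↔ ∀ φ ∈ B, φ w = 0 := by
    intro w
    simp [W]
  have hYc : IsClosed (Y : Set X) := isClosed_closure
  have hWc : IsClosed (W : Set X) := by
    have : (W : Set X) = ⋂ φ ∈ B, {w | φ w = 0} := by
      ext w
      simp [hW]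
    rw [this]
    exact isClosed_biInter fun φ _ => isClosed_eq φ.continuous continuous_const
  have hbound : ∀ y ∈ Y, ∀ w ∈ W, ‖y‖ ≤ K * ‖y + w‖ := by
    intro y hy w hw
    have hcl : IsClosed {y : X | ‖y‖ ≤ K * ‖y + w‖} := isClosed_le (by fun_prop) (by fun_prop)
    refine hcl.closure_subset_iff.2 (fun y hy => ?_) hy
    obtain ⟨φ, hφ, hφ1, hφ2⟩ := h1 y hy
    have e : φ y = φ (y + w) := by rw [map_add, (hW w).1 hw φ hφ, add_zero]
    calc ‖y‖ ≤ φ (y + w) := e ▸ hφ2
      _ ≤ ‖φ (y + w)‖ := le_abs_self _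
      _ ≤ ‖φ‖ * ‖y + w‖ := φ.le_opNorm _
      _ ≤ K * ‖y + w‖ := by gcongr
  have : CompleteSpace Y := hYc.completeSpace_coe
  have : CompleteSpace W := hWc.completeSpace_coe
  have hsum : IsClosed ((Y ⊔ W : Submodule ℝ X) : Set X) := by
    let S : (Y × W) →L[ℝ] X := Y.subtypeL.coprod W.subtypeL
    have hanti : AntilipschitzWith ⟨K + 1, by positivity⟩ S := by
      refine ContinuousLinearMap.antilipschitz_of_bound S fun p => ?_
      have hb := hbound p.1 p.1.2 p.2 p.2.2
      have hS : S p = p.1 + p.2 := rfl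
      have h3 : ‖(p.2 : X)‖ ≤ ‖(p.1 : X) + p.2‖ + ‖(p.1 : X)‖ := by
        simpa using norm_sub_le ((p.1 : X) + p.2) p.1
      have h4 := norm_nonneg ((p.1 : X) + p.2)
      rw [hS, Prod.norm_def]
      refine max_le ?_ ?_
      · show ‖(p.1 : X)‖ ≤ (K + 1) * _
        linarith
      · show ‖(p.2 : X)‖ ≤ (K + 1) * _
        linarith
    have hr : ((Y ⊔ W : Submodule ℝ X) : Set X) = range S := by
      ext x
      constructor
      · intro hx
        obtain ⟨y, hy, w, hw, rfl⟩ := Submodule.mem_sup.1 hx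
        exact ⟨(⟨y, hy⟩, ⟨w, hw⟩), rfl⟩
      · rintro ⟨p, rfl⟩
        exact Submodule.add_mem_sup p.1.2 p.2.2
    rw [hr]
    exact hanti.isClosed_range S.uniformContinuous
  have hcompl : IsCompl Y W := by
    constructor
    · rw [Submodule.disjoint_def]
      intro x hx hx'
      have := hbound x hx (-x) (W.neg_mem hx')
      simpa using this
    · rw [codisjoint_iff, eq_top_iff]
      intro x _
      by_contra hx
      obtain ⟨φ, hφ1, hφ2⟩ := exists_annihilator _ hsum hx
      have hφB : φ ∈ closure B := mem_closure_of_kills hX hB φ fun w hw =>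
        hφ1 w (Submodule.mem_sup_right ((hW w).2 hw))
      have hcl : IsClosed {ψ : StrongDual ℝ X | ‖ψ‖ ≤ 2 * (‖ψ - φ‖ * K)} :=
        isClosed_le (by fun_prop) (by fun_prop)
      have : φ ∈ {ψ : StrongDual ℝ X | ‖ψ‖ ≤ 2 * (‖ψ - φ‖ * K)} := by
        refine hcl.closure_subset_iff.2 (fun ψ hψ => ?_) hφB
        obtain ⟨y, hy, hy1, hy2⟩ := h2 ψ hψ
        have e : ψ y = (ψ - φ) y := by
          rw [sub_apply,
            hφ1 y (Submodule.mem_sup_left (subset_closure hy)), sub_zero]
        have h5 : (ψ - φ) y ≤ ‖ψ - φ‖ * K :=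
          calc (ψ - φ) y ≤ ‖(ψ - φ) y‖ := le_abs_self _
            _ ≤ ‖ψ - φ‖ * ‖y‖ := (ψ - φ).le_opNorm _
            _ ≤ ‖ψ - φ‖ * K := by gcongr
        show ‖ψ‖ ≤ _
        linarith
      have h0 : φ = 0 := by simpa using this
      exact hφ2 (by simp [h0])
  have htop : Submodule.IsTopCompl Y W := Submodule.IsCompl.isTopCompl_of_isClosed hcompl hYc hWc
  refine ⟨Y.projectionL W htop, fun x => ?_, fun x φ hφ => ?_, fun y hy => ?_, fun w hw => ?_⟩
  · exact Submodule.projectionL_apply_mem htop x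
  · have h := (hW _).1 (Submodule.projectionL_apply_mem htop.symm x) φ hφ
    have e := Submodule.projectionL_add_projectionL_eq_self htop x
    conv_rhs => rw [← e]
    rw [map_add, h, add_zero]
  · exact Submodule.projectionL_apply_left htop ⟨y, hy⟩
  · exact Submodule.projectionL_apply_right htop ⟨w, (hW w).2 hw⟩

end Proj

end Pool.Agent.P.MP_16d9f2_an
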