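import Mathlib
import Pool.Agent.P.MP_16d9f2_an.Proj

/-!
A reflexive space of density at most continuum splits into at most continuum many separable
biorthogonal pieces.
-/

set_option autoImplicit false

namespace Pool.Agent.P.MP_16d9f2_an

open Set Cardinal

variable {X : Type} [NormedAddCommGroup X] [NormedSpace ℝ X]

/-- A separable biorthogonal decomposition of the range of the projection `Q`. -/
structure IsDecomp (Q : X →L[ℝ] X) (𝓟 : Set (Set X × Set (StrongDual ℝ X))) : Prop where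
  count₁ : ∀ p ∈ 𝓟, p.1.Countable
  count₂ : ∀ p ∈ 𝓟, p.2.Countable
  fix₁ : ∀ p ∈ 𝓟, ∀ x ∈ p.1, Q x = x
  fix₂ : ∀ p ∈ 𝓟, ∀ φ ∈ p.2, ∀ x, φ (Q x) = φ x
  orth : ∀ p ∈ 𝓟, ∀ p' ∈ 𝓟, p ≠ p' → ∀ φ ∈ p.2, ∀ x ∈ p'.1, φ x = 0
  dense : ∀ x, Q x ∈ closure (Submodule.span ℝ (⋃ p ∈ 𝓟, p.1) : Set X)
  total : ∀ x, (∀ p ∈ 𝓟, ∀ φ ∈ p.2, φ x = 0) → Q x = 0
  card : #𝓟 ≤ 𝔠

lemma exists_n1 : ∃ n1 : X → StrongDual ℝ X, n1 0 = 0 ∧ ∀ x, ‖n1 x‖ ≤ 1 ∧ n1 x x = ‖x‖ := by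
  have h : ∀ x : X, ∃ φ : StrongDual ℝ X, (x = 0 → φ = 0) ∧ ‖φ‖ ≤ 1 ∧ φ x = ‖x‖ := by
    intro x
    by_cases hx : x = 0
    · exact ⟨0, fun _ => rfl, by simp, by simp [hx]⟩
    · obtain ⟨φ, h1, h2⟩ := exists_dual_vector'' ℝ x
      exact ⟨φ, fun h => absurd h hx, h1, by simpa using h2⟩
  choose n1 hn1 using h
  exact ⟨n1, (hn1 0).1 rfl, fun x => (hn1 x).2⟩

lemma exists_half_norming (φ : StrongDual ℝ X) :
    ∃ x : X, (φ = 0 → x = 0) ∧ ‖x‖ < 1 ∧ (φ ≠ 0 → ‖φ‖ < 2 * φ x) := by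
  by_cases hφ : φ = 0
  · exact ⟨0, fun _ => rfl, by simp, fun h => absurd hφ h⟩
  · have hpos : 0 < ‖φ‖ := norm_pos_iff.2 hφ
    obtain ⟨x, hx1, hx2⟩ := φ.exists_lt_apply_of_lt_opNorm (r := ‖φ‖ / 2) (by linarith)
    rcases le_total 0 (φ x) with h | h
    · refine ⟨x, fun h => absurd h hφ, hx1, fun _ => ?_⟩
      rw [Real.norm_eq_abs, abs_of_nonneg h] at hx2
      linarith
    · refine ⟨-x, fun h => absurd h hφ, by simpa using hx1, fun _ => ?_⟩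
      rw [Real.norm_eq_abs, abs_of_nonpos h] at hx2
      rw [map_neg]
      linarith

lemma exists_n2 : ∃ n2 : StrongDual ℝ X → X, n2 0 = 0 ∧ ∀ φ, ‖n2 φ‖ ≤ 1 ∧ ‖φ‖ ≤ 2 * φ (n2 φ) := by
  choose n2 hn2 using exists_half_norming (X := X)
  refine ⟨n2, (hn2 0).1 rfl, fun φ => ⟨(hn2 φ).2.1.le, ?_⟩⟩
  by_cases hφ : φ = 0
  · simp [hφ]
  · exact ((hn2 φ).2.2 hφ).le

lemma eq_zero_of_normers {n1 : X → StrongDual ℝ X} (hn1 : ∀ x, ‖n1 x‖ ≤ 1 ∧ n1 x x = ‖x‖)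
    {D : Set X} {y : X} (hy : y ∈ closure D) (h : ∀ d ∈ D, n1 d y = 0) : y = 0 := by
  have hcl : IsClosed {d : X | ‖d‖ ≤ ‖d - y‖} := isClosed_le (by fun_prop) (by fun_prop)
  have : y ∈ {d : X | ‖d‖ ≤ ‖d - y‖} := by
    refine hcl.closure_subset_iff.2 (fun d hd => ?_) hy
    have e : ‖d‖ = n1 d (d - y) := by rw [map_sub, h d hd, sub_zero, (hn1 d).2]
    show ‖d‖ ≤ ‖d - y‖
    calc ‖d‖ = n1 d (d - y) := e
      _ ≤ ‖n1 d (d - y)‖ := le_abs_self _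
      _ ≤ ‖n1 d‖ * ‖d - y‖ := (n1 d).le_opNorm _
      _ ≤ 1 * ‖d - y‖ := by gcongr; exact (hn1 d).1
      _ = ‖d - y‖ := one_mul _
  simpa using this

lemma decomp_of_countable (Q : X →L[ℝ] X) (hQ : ∀ x, Q (Q x) = Q x) (D : Set X)
    (hD1 : ∀ d ∈ D, Q d = d) (hD2 : ∀ x, Q x ∈ closure D) (hD : D.Countable) :
    ∃ 𝓟, IsDecomp Q 𝓟 := by
  obtain ⟨n1, -, hn1⟩ := exists_n1 (X := X)
  refine ⟨{(D, (fun d => (n1 d).comp Q) '' D)}, ?_, ?_, ?_, ?_, ?_, ?_, ?_, ?_⟩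
  · rintro p rfl
    exact hD
  · rintro p rfl
    exact hD.image _
  · rintro p rfl
    exact hD1
  · rintro p rfl φ ⟨d, _, rfl⟩ x
    simp [hQ]
  · rintro p rfl p' rfl h
    exact absurd rfl h
  · intro x
    refine closure_mono ?_ (hD2 x)
    intro d hd
    exact Submodule.subset_span (by simpa using hd)
  · intro x hx
    refine eq_zero_of_normers hn1 (hD2 x) fun d hd => ?_
    exact hx _ rfl _ ⟨d, hd, rfl⟩
  · rw [mk_singleton]
    exact one_le_aleph0.trans aleph0_le_continuum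

/-- The operations under which the pairs of sets are closed. -/
noncomputable def pairOp (Q : X →L[ℝ] X) (n1 : X → StrongDual ℝ X) (n2 : StrongDual ℝ X → X) :
    Option ℚ → X × StrongDual ℝ X → X × StrongDual ℝ X → X × StrongDual ℝ X
  | some q, a, b => (q : ℝ) • a + b
  | none, a, _ => (Q (n2 a.2), (n1 a.1).comp Q)

/-- The family of projections attached to subsets of the range of `Q`. -/
lemma exists_family [CompleteSpace X]
    (hX : Function.Surjective (NormedSpace.inclusionInDoubleDual ℝ X))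
    (Q : X →L[ℝ] X) (hQ : ∀ x, Q (Q x) = Q x) :
    ∃ (n1 : X → StrongDual ℝ X) (M : Set X → Set (X × StrongDual ℝ X)) (P : Set X → X →L[ℝ] X),
      (∀ x, ‖n1 x‖ ≤ 1 ∧ n1 x x = ‖x‖) ∧
      (∀ S S', S ⊆ S' → M S ⊆ M S') ∧
      (∀ S, ∀ d ∈ S, (d, 0) ∈ M S) ∧
      (∀ S, ∀ d ∈ S, ∃ a ∈ M S, a.2 = (n1 d).comp Q) ∧
      (∀ (S : Set X) (κ : Cardinal.{0}), ℵ₀ ≤ κ → #S ≤ κ → #(M S) ≤ κ) ∧
      (∀ (J : Type) [LinearOrder J] (e : J → X) (α : J), ∀ a ∈ M (e '' Iio α),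
        a = 0 ∨ ∃ β < α, a ∈ M (e '' Iic β)) ∧
      (∀ S, (∀ d ∈ S, Q d = d) →
        (∀ a ∈ M S, Q a.1 = a.1 ∧ ∀ x, a.2 (Q x) = a.2 x) ∧
        (∀ x, P S x ∈ closure (Prod.fst '' M S)) ∧ (∀ x, ∀ a ∈ M S, a.2 (P S x) = a.2 x) ∧
        (∀ y ∈ closure (Prod.fst '' M S), P S y = y) ∧
        (∀ w, (∀ a ∈ M S, a.2 w = 0) → P S w = 0)) := by
  obtain ⟨n1, hn10, hn1⟩ := exists_n1 (X := X)
  obtain ⟨n2, hn20, hn2⟩ := exists_n2 (X := X)
  let op := pairOp Q n1 n2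
  let M : Set X → Set (X × StrongDual ℝ X) := fun S => hull op (insert 0 ((fun d => (d, 0)) '' S))
  have hM0 : ∀ S, (0 : X × StrongDual ℝ X) ∈ M S := fun S => subset_hull _ _ (mem_insert _ _)
  have hMd : ∀ S, ∀ d ∈ S, (d, 0) ∈ M S := fun S d hd =>
    subset_hull _ _ (mem_insert_of_mem _ ⟨d, hd, rfl⟩)
  have hmono : ∀ S S', S ⊆ S' → M S ⊆ M S' := fun S S' h =>
    hull_mono _ (insert_subset_insert (image_mono h))
  have hfix : ∀ S, (∀ d ∈ S, Q d = d) → ∀ a ∈ M S, Q a.1 = a.1 ∧ ∀ x, a.2 (Q x) = a.2 x := by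
    intro S hS
    refine hull_subset op (N := {a | Q a.1 = a.1 ∧ ∀ x, a.2 (Q x) = a.2 x}) ?_ ?_
    · rintro a (rfl | ⟨d, hd, rfl⟩)
      · simp
      · exact ⟨hS d hd, by simp⟩
    · rintro (_ | q) a ha b hb
      · exact ⟨hQ _, fun x => by simp [op, pairOp, hQ]⟩
      · refine ⟨?_, fun x => ?_⟩
        · simp [op, pairOp, ha.1, hb.1]
        · simp [op, pairOp, ha.2, hb.2]
  have hP : ∀ S : Set X, ∃ P : X →L[ℝ] X, (∀ d ∈ S, Q d = d) →
      (∀ x, P x ∈ closure (Prod.fst '' M S)) ∧ (∀ x, ∀ a ∈ M S, a.2 (P x) = a.2 x) ∧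
        (∀ y ∈ closure (Prod.fst '' M S), P y = y) ∧
        (∀ w, (∀ a ∈ M S, a.2 w = 0) → P w = 0) := by
    intro S
    by_cases hS : ∀ d ∈ S, Q d = d
    swap
    · exact ⟨0, fun h => absurd h hS⟩
    have hA : QClosed (Prod.fst '' M S) := by
      refine ⟨⟨0, hM0 S, rfl⟩, ?_⟩
      rintro q _ ⟨a, ha, rfl⟩ _ ⟨b, hb, rfl⟩
      exact ⟨_, op_mem_hull op _ (some q) ha hb, rfl⟩
    have hB : QClosed (Prod.snd '' M S) := by
      refine ⟨⟨0, hM0 S, rfl⟩, ?_⟩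
      rintro q _ ⟨a, ha, rfl⟩ _ ⟨b, hb, rfl⟩
      exact ⟨_, op_mem_hull op _ (some q) ha hb, rfl⟩
    obtain ⟨P, h1, h2, h3, h4⟩ := exists_proj hX hA hB ‖Q‖ (norm_nonneg _) (by
      rintro _ ⟨a, ha, rfl⟩
      refine ⟨_, ⟨_, op_mem_hull op _ none ha ha, rfl⟩, ?_, ?_⟩
      · show ‖(n1 a.1).comp Q‖ ≤ ‖Q‖
        calc ‖(n1 a.1).comp Q‖ ≤ ‖n1 a.1‖ * ‖Q‖ := ContinuousLinearMap.opNorm_comp_le _ _
          _ ≤ 1 * ‖Q‖ := by gcongr; exact (hn1 _).1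
          _ = ‖Q‖ := one_mul _
      · show ‖a.1‖ ≤ n1 a.1 (Q a.1)
        rw [(hfix S hS a ha).1, (hn1 _).2]) (by
      rintro _ ⟨a, ha, rfl⟩
      refine ⟨_, ⟨_, op_mem_hull op _ none ha ha, rfl⟩, ?_, ?_⟩
      · show ‖Q (n2 a.2)‖ ≤ ‖Q‖
        calc ‖Q (n2 a.2)‖ ≤ ‖Q‖ * ‖n2 a.2‖ := Q.le_opNorm _
          _ ≤ ‖Q‖ * 1 := by gcongr; exact (hn2 _).1
          _ = ‖Q‖ := mul_one _
      · show ‖a.2‖ ≤ 2 * a.2 (Q (n2 a.2))
        rw [(hfix S hS a ha).2]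
        exact (hn2 _).2)
    refine ⟨P, fun _ => ⟨h1, fun x a ha => h2 x _ ⟨a, ha, rfl⟩, h3, fun w hw => h4 w ?_⟩⟩
    rintro _ ⟨a, ha, rfl⟩
    exact hw a ha
  choose P hP using hP
  refine ⟨n1, M, P, hn1, hmono, hMd, ?_, ?_, ?_, fun S hS => ⟨hfix S hS, hP S hS⟩⟩
  · intro S d hd
    exact ⟨_, op_mem_hull op _ none (hMd S d hd) (hMd S d hd), rfl⟩
  · intro S κ hκ hS
    refine mk_hull_le op _ κ hκ ?_
    refine mk_insert_le.trans ?_
    exact add_le_of_le hκ (mk_image_le.trans hS) (one_le_aleph0.trans hκ)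
  · intro J _ e α
    refine hull_subset op (N := {a | a = 0 ∨ ∃ β < α, a ∈ M (e '' Iic β)}) ?_ ?_
    · rintro a (rfl | ⟨_, ⟨β, hβ, rfl⟩, rfl⟩)
      · exact Or.inl rfl
      · exact Or.inr ⟨β, hβ, hMd _ _ ⟨β, mem_Iic.2 le_rfl, rfl⟩⟩
    · rintro i a (rfl | ⟨β, hβ, ha⟩) b (rfl | ⟨γ, hγ, hb⟩)
      · left
        rcases i with _ | q
        · simp [op, pairOp, hn10, hn20]
        · simp [op, pairOp]
      · exact Or.inr ⟨γ, hγ, op_mem_hull op _ i (hM0 _) hb⟩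
      · exact Or.inr ⟨β, hβ, op_mem_hull op _ i ha (hM0 _)⟩
      · refine Or.inr ⟨max β γ, max_lt hβ hγ, op_mem_hull op _ i ?_ ?_⟩
        · exact hmono _ _ (image_mono (Iic_subset_Iic.2 (le_max_left _ _))) ha
        · exact hmono _ _ (image_mono (Iic_subset_Iic.2 (le_max_right _ _))) hb

theorem exists_decomp_aux [CompleteSpace X]
    (hX : Function.Surjective (NormedSpace.inclusionInDoubleDual ℝ X)) (κ : Cardinal.{0}) :
    ∀ (Q : X →L[ℝ] X), (∀ x, Q (Q x) = Q x) → ∀ (D : Set X), (∀ d ∈ D, Q d = d) →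
      (∀ x, Q x ∈ closure D) → #D = κ → κ ≤ 𝔠 → ∃ 𝓟, IsDecomp Q 𝓟 := by
  induction κ using WellFoundedLT.induction with
  | ind κ ih =>
  intro Q hQ D hD1 hD2 hDκ hκc
  by_cases hcount : κ ≤ ℵ₀
  · exact decomp_of_countable Q hQ D hD1 hD2 (le_aleph0_iff_set_countable.1 (hDκ ▸ hcount))
  push Not at hcount
  obtain ⟨n1, M, P, hn1, hmono, hMd, hMn, hMcard, hMlim, hP⟩ := exists_family hX Q hQ
  let J := κ.ord.ToType
  have hJ : #J = #D := by simp [J, hDκ]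
  obtain ⟨e0⟩ := Cardinal.eq.1 hJ
  let e : J → X := fun α => e0 α
  have heD : ∀ (U : Set J), ∀ d ∈ e '' U, Q d = d := by
    rintro U _ ⟨α, _, rfl⟩
    exact hD1 _ (e0 α).2
  have hfixM := fun U => (hP _ (heD U)).1
  have hP1 := fun U => (hP _ (heD U)).2.1
  have hP2 := fun U => (hP _ (heD U)).2.2.1
  have hP3 := fun U => (hP _ (heD U)).2.2.2.1
  have hP4 := fun U => (hP _ (heD U)).2.2.2.2
  -- commutation relations
  have hc1 : ∀ U V : Set J, U ⊆ V → ∀ x, P (e '' V) (P (e '' U) x) = P (e '' U) x := by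
    intro U V h x
    exact hP3 V _ (closure_mono (image_mono (hmono _ _ (image_mono h))) (hP1 U x))
  have hc2 : ∀ U V : Set J, U ⊆ V → ∀ x, P (e '' U) (P (e '' V) x) = P (e '' U) x := by
    intro U V h x
    have := hP4 U (P (e '' V) x - x) fun a ha => by
      rw [map_sub, hP2 V x a (hmono _ _ (image_mono h) ha), sub_self]
    rwa [map_sub, sub_eq_zero] at this
  have hc3 : ∀ U : Set J, ∀ x, Q (P (e '' U) x) = P (e '' U) x := by
    intro U x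
    have hcl : IsClosed {y : X | Q y = y} := isClosed_eq Q.continuous continuous_id
    refine hcl.closure_subset_iff.2 ?_ (hP1 U x)
    rintro _ ⟨a, ha, rfl⟩
    exact (hfixM U a ha).1
  have hc4 : ∀ U : Set J, ∀ x, P (e '' U) (Q x) = P (e '' U) x := by
    intro U x
    have := hP4 U (Q x - x) fun a ha => by rw [map_sub, (hfixM U a ha).2, sub_self]
    rwa [map_sub, sub_eq_zero] at this
  let R : J → X →L[ℝ] X := fun α => P (e '' Iic α) - P (e '' Iio α)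
  have hR : ∀ α x, R α x = P (e '' Iic α) x - P (e '' Iio α) x := fun α x => rfl
  have hRP : ∀ α x, R α (P (e '' Iic α) x) = R α x := by
    intro α x
    rw [hR, hR, hc1 _ _ subset_rfl, hc2 _ _ Iio_subset_Iic_self]
  have hRR : ∀ α x, R α (R α x) = R α x := by
    intro α x
    rw [hR α x, map_sub, hRP, hR α (P (e '' Iio α) x), hc1 _ _ Iio_subset_Iic_self,
      hc1 _ _ subset_rfl, sub_self, sub_zero, hR]
  have hRorth : ∀ α β, α ≠ β → ∀ x, R α (R β x) = 0 := by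
    intro α β h x
    rcases lt_or_gt_of_ne h with h | h
    · have h1 : Iic α ⊆ Iio β := Iic_subset_Iio.2 h
      have h2 : Iic α ⊆ Iic β := Iic_subset_Iic.2 h.le
      rw [hR, hR, map_sub, map_sub, hc2 _ _ h1, hc2 _ _ h2,
        hc2 _ _ (Iio_subset_Iic_self.trans h1), hc2 _ _ (Iio_subset_Iic_self.trans h2)]
      simp
    · have h1 : Iic β ⊆ Iio α := Iic_subset_Iio.2 h
      have h2 : Iic β ⊆ Iic α := Iic_subset_Iic.2 h.le
      rw [hR, hR, map_sub, map_sub, hc1 _ _ h1, hc1 _ _ h2,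
        hc1 _ _ (Iio_subset_Iic_self.trans h1), hc1 _ _ (Iio_subset_Iic_self.trans h2)]
      simp
  have hpieces : ∀ α, ∃ 𝓟, IsDecomp (R α) 𝓟 := by
    intro α
    have hlt : #(R α '' (Prod.fst '' M (e '' Iic α))) < κ := by
      have h1 : #(Iio α) < κ := mk_Iio_toType_ord_lt α
      have h2 : #(Iic α) ≤ max #(Iio α) ℵ₀ := by
        rw [← Iio_insert]
        refine mk_insert_le.trans ?_
        exact add_le_of_le (le_max_right _ _) (le_max_left _ _)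
          (one_le_aleph0.trans (le_max_right _ _))
      refine lt_of_le_of_lt ?_ (max_lt h1 hcount)
      refine mk_image_le.trans (mk_image_le.trans ?_)
      exact hMcard _ _ (le_max_right _ _) (mk_image_le.trans h2)
    refine ih _ hlt (R α) (hRR α) _ ?_ ?_ rfl (hlt.le.trans hκc)
    · rintro _ ⟨y, _, rfl⟩
      exact hRR α y
    · intro x
      rw [← hRP]
      exact image_closure_subset_closure_image (R α).continuous ⟨_, hP1 _ x, rfl⟩
  choose 𝓠 h𝓠 using hpieces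
  refine ⟨⋃ α, 𝓠 α, ?_, ?_, ?_, ?_, ?_, ?_, ?_, ?_⟩
  · intro p hp
    obtain ⟨α, hα⟩ := mem_iUnion.1 hp
    exact (h𝓠 α).count₁ p hα
  · intro p hp
    obtain ⟨α, hα⟩ := mem_iUnion.1 hp
    exact (h𝓠 α).count₂ p hα
  · intro p hp x hx
    obtain ⟨α, hα⟩ := mem_iUnion.1 hp
    rw [← (h𝓠 α).fix₁ p hα x hx, hR, map_sub, hc3, hc3]
  · intro p hp φ hφ x
    obtain ⟨α, hα⟩ := mem_iUnion.1 hp
    rw [← (h𝓠 α).fix₂ p hα φ hφ (Q x), ← (h𝓠 α).fix₂ p hα φ hφ x, hR, hR, hc4, hc4]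
  · intro p hp p' hp' hne φ hφ x hx
    obtain ⟨α, hα⟩ := mem_iUnion.1 hp
    obtain ⟨β, hβ⟩ := mem_iUnion.1 hp'
    by_cases h : α = β
    · subst h
      exact (h𝓠 α).orth p hα p' hβ hne φ hφ x hx
    · rw [← (h𝓠 β).fix₁ p' hβ x hx, ← (h𝓠 α).fix₂ p hα φ hφ, hRorth α β h, map_zero]
  · set Y : Submodule ℝ X := (Submodule.span ℝ (⋃ p ∈ ⋃ α, 𝓠 α, p.1)).topologicalClosure with hY
    have hYc : IsClosed (Y : Set X) := Submodule.isClosed_topologicalClosure _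
    have hRY : ∀ α x, R α x ∈ Y := by
      intro α x
      refine closure_mono ?_ ((h𝓠 α).dense x)
      refine Submodule.span_mono ?_
      exact biUnion_subset_biUnion_left (subset_iUnion 𝓠 α)
    have hPY : ∀ α x, P (e '' Iic α) x ∈ Y := by
      intro α
      induction α using WellFoundedLT.induction with
      | ind α ihα =>
      intro x
      have h1 : P (e '' Iio α) x ∈ Y := by
        refine hYc.closure_subset_iff.2 ?_ (hP1 _ x)
        rintro _ ⟨a, ha, rfl⟩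
        rcases hMlim J e α a ha with rfl | ⟨β, hβ, ha'⟩
        · exact Y.zero_mem
        · have := ihα β hβ a.1
          rwa [hP3 _ _ (subset_closure ⟨a, ha', rfl⟩)] at this
      have := Y.add_mem (hRY α x) h1
      rwa [hR, sub_add_cancel] at this
    intro x
    refine hYc.closure_subset_iff.2 ?_ (hD2 x)
    intro d hd
    have hd' : e (e0.symm ⟨d, hd⟩) = d := by simp [e]
    have := hPY (e0.symm ⟨d, hd⟩) d
    rwa [hP3 _ _ (subset_closure ⟨(d, 0), hMd _ _ ⟨_, mem_Iic.2 le_rfl, hd'⟩, rfl⟩)] at this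
  · intro x hx
    have hRx : ∀ α, R α x = 0 := fun α =>
      (h𝓠 α).total x fun p hp => hx p (mem_iUnion.2 ⟨α, hp⟩)
    have hPx : ∀ α, P (e '' Iic α) x = 0 := by
      intro α
      induction α using WellFoundedLT.induction with
      | ind α ihα =>
      have h1 : P (e '' Iio α) x = 0 := by
        refine hP4 _ _ fun a ha => ?_
        rcases hMlim J e α a ha with rfl | ⟨β, hβ, ha'⟩
        · simp
        · rw [← hP2 _ x a ha', ihα β hβ, map_zero]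
      have := hRx α
      rwa [hR, h1, sub_zero] at this
    refine eq_zero_of_normers hn1 (hD2 x) fun d hd => ?_
    have hd' : e (e0.symm ⟨d, hd⟩) = d := by simp [e]
    obtain ⟨a, ha, ha2⟩ := hMn (e '' Iic (e0.symm ⟨d, hd⟩)) d ⟨_, mem_Iic.2 le_rfl, hd'⟩
    have := hP2 _ x a ha
    rw [hPx, map_zero, ha2] at this
    exact this.symm
  · refine mk_iUnion_le_sum_mk.trans ?_
    refine (sum_le_sum _ (fun _ => 𝔠) fun α => (h𝓠 α).card).trans ?_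
    rw [sum_const', hJ, hDκ]
    exact (mul_le_mul' hκc le_rfl).trans (mul_eq_self aleph0_le_continuum).le

theorem exists_decomp [CompleteSpace X]
    (hX : Function.Surjective (NormedSpace.inclusionInDoubleDual ℝ X)) (D : Set X)
    (hD : Dense D) (hc : #D ≤ 𝔠) : ∃ 𝓟, IsDecomp (ContinuousLinearMap.id ℝ X) 𝓟 :=
  exists_decomp_aux hX _ _ (fun _ => rfl) D (fun _ _ => rfl) (fun x => hD x) rfl hc

end Pool.Agent.P.MP_16d9f2_an
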