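import Mathlib
import Pool.Agent.P.MP_16d9f2_an.Decomp

/-!
From a separable biorthogonal decomposition with at most continuum many pieces to a bi-Lipschitz
embedding into bounded sequences.
-/

set_option autoImplicit false

namespace Pool.Agent.P.MP_16d9f2_an

open Set Cardinal

/-- Extension of an almost Lipschitz function. -/
lemma approx_mcshane {X : Type*} [PseudoMetricSpace X] {D : Type*} (π : D → X) (g : D → ℝ)
    (K ε : ℝ) (hK : 0 ≤ K) (h : ∀ p q, g p - g q ≤ K * dist (π p) (π q) + ε) :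
    ∃ F : X → ℝ, (∀ u v, F u - F v ≤ K * dist u v) ∧ ∀ p, g p - ε ≤ F (π p) ∧ F (π p) ≤ g p := by
  rcases isEmpty_or_nonempty D with hD | hD
  · exact ⟨fun _ => 0, fun u v => by simpa using mul_nonneg hK dist_nonneg, fun p => hD.elim p⟩
  have hlow : ∀ w p q, g p - ε - K * dist w (π p) ≤ g q + K * dist w (π q) := by
    intro w p q
    have h1 := h p q
    have h2 : dist (π p) (π q) ≤ dist w (π p) + dist w (π q) := dist_triangle_left _ _ _
    have h3 := mul_le_mul_of_nonneg_left h2 hK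
    linarith
  have hbdd : ∀ w, BddBelow (range fun q => g q + K * dist w (π q)) := by
    intro w
    obtain ⟨p⟩ := hD
    refine ⟨g p - ε - K * dist w (π p), ?_⟩
    rintro _ ⟨q, rfl⟩
    exact hlow w p q
  refine ⟨fun w => ⨅ q, g q + K * dist w (π q), fun u v => ?_, fun p => ⟨?_, ?_⟩⟩
  · have : (⨅ q, g q + K * dist u (π q)) - K * dist u v ≤ ⨅ q, g q + K * dist v (π q) := by
      refine le_ciInf fun q => ?_
      have h1 := ciInf_le (hbdd u) q
      have h2 := mul_le_mul_of_nonneg_left (dist_triangle u v (π q)) hK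
      linarith
    linarith
  · refine le_ciInf fun q => ?_
    simpa using hlow (π p) p q
  · simpa using ciInf_le (hbdd (π p)) p

/-- A countable family of Lipschitz functions which sees all distances gives an embedding. -/
lemma embed_of_family {X : Type*} [PseudoMetricSpace X] {C : Type*} [Countable C] [Nonempty C]
    (x₀ : X) (F : C → X → ℝ) (K l : ℝ) (hK : 0 ≤ K)
    (hF : ∀ c u v, F c u - F c v ≤ K * dist u v)
    (hl : ∀ u v, ∃ c, l * dist u v ≤ F c u - F c v) :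
    ∃ f : X → lp (fun _ : ℕ => ℝ) ⊤,
      ∀ x y, l * dist x y ≤ dist (f x) (f y) ∧ dist (f x) (f y) ≤ K * dist x y := by
  obtain ⟨s, hs⟩ := exists_surjective_nat C
  have habs : ∀ c u v, |F c u - F c v| ≤ K * dist u v := by
    intro c u v
    rw [abs_le]
    have h1 := hF c u v
    have h2 := hF c v u
    rw [dist_comm] at h2
    constructor <;> linarith
  have hmem : ∀ x, Memℓp (fun j : ℕ => F (s j) x - F (s j) x₀) ⊤ := by
    intro x
    refine memℓp_infty ⟨K * dist x x₀, ?_⟩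
    rintro _ ⟨j, rfl⟩
    exact habs _ _ _
  refine ⟨fun x => ⟨_, hmem x⟩, fun x y => ⟨?_, ?_⟩⟩
  · obtain ⟨c, hc⟩ := hl x y
    obtain ⟨j, rfl⟩ := hs c
    rw [dist_eq_norm]
    refine le_trans ?_ (lp.norm_apply_le_norm ENNReal.top_ne_zero _ j)
    refine hc.trans ?_
    show _ ≤ ‖(F (s j) x - F (s j) x₀) - (F (s j) y - F (s j) x₀)‖
    rw [sub_sub_sub_cancel_right]
    exact le_abs_self _
  · rw [dist_eq_norm]
    refine lp.norm_le_of_forall_le (mul_nonneg hK dist_nonneg) fun j => ?_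
    show ‖(F (s j) x - F (s j) x₀) - (F (s j) y - F (s j) x₀)‖ ≤ _
    rw [sub_sub_sub_cancel_right]
    exact habs _ _ _

variable {X : Type} [NormedAddCommGroup X] [NormedSpace ℝ X] {ι : Type}

/-- The span of the vectors with label in `H`. -/
def spanOn (e : ι → ℕ → X) (H : Set ι) : Submodule ℝ X :=
  Submodule.span ℝ {x | ∃ i ∈ H, ∃ m, x = e i m}

lemma spanOn_mono (e : ι → ℕ → X) {H H' : Set ι} (h : H ⊆ H') : spanOn e H ≤ spanOn e H' := by
  refine Submodule.span_mono ?_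
  rintro _ ⟨i, hi, m, rfl⟩
  exact ⟨i, h hi, m, rfl⟩

lemma exists_finite_supp (e : ι → ℕ → X) {x : X} (hx : x ∈ spanOn e univ) :
    ∃ T : Set ι, T.Finite ∧ x ∈ spanOn e T := by
  induction hx using Submodule.span_induction with
  | mem x hx =>
    obtain ⟨i, _, m, rfl⟩ := hx
    exact ⟨{i}, finite_singleton i, Submodule.subset_span ⟨i, rfl, m, rfl⟩⟩
  | zero => exact ⟨∅, finite_empty, Submodule.zero_mem _⟩
  | add x y _ _ hx hy =>
    obtain ⟨T, hT, hx⟩ := hx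
    obtain ⟨T', hT', hy⟩ := hy
    exact ⟨T ∪ T', hT.union hT', Submodule.add_mem _ (spanOn_mono e subset_union_left hx)
      (spanOn_mono e subset_union_right hy)⟩
  | smul a x _ hx =>
    obtain ⟨T, hT, hx⟩ := hx
    exact ⟨T, hT, Submodule.smul_mem _ a hx⟩

lemma apply_eq_zero {e : ι → ℕ → X} {f : ι → ℕ → StrongDual ℝ X}
    (horth : ∀ i j, i ≠ j → ∀ n m, f i n (e j m) = 0) {H : Set ι} {i : ι} (hi : i ∉ H) (n : ℕ)
    {x : X} (hx : x ∈ spanOn e H) : f i n x = 0 := by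
  induction hx using Submodule.span_induction with
  | mem x hx =>
    obtain ⟨j, hj, m, rfl⟩ := hx
    exact horth i j (fun h => hi (h ▸ hj)) n m
  | zero => simp
  | add x y _ _ hx hy => simp [hx, hy]
  | smul a x _ hx => simp [hx]

lemma finite_large {e : ι → ℕ → X} {f : ι → ℕ → StrongDual ℝ X}
    (horth : ∀ i j, i ≠ j → ∀ n m, f i n (e j m) = 0) (hnorm : ∀ i n, ‖f i n‖ ≤ 1)
    (hdense : Dense (spanOn e univ : Set X)) (x : X) (n : ℕ) (a η : ℝ) (hη : 0 < η) :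
    {i | η < |a * f i n x|}.Finite := by
  obtain ⟨y, hy, hxy⟩ := Metric.dense_iff.1 hdense x (η / (|a| + 1)) (by positivity)
  obtain ⟨T, hT, hyT⟩ := exists_finite_supp e hxy
  refine hT.subset fun i hi => ?_
  by_contra hiT
  have h0 := apply_eq_zero horth hiT n hyT
  have h1 : |f i n x| ≤ ‖x - y‖ := by
    have : f i n x = f i n (x - y) := by rw [map_sub, h0, sub_zero]
    rw [this]
    calc |f i n (x - y)| = ‖f i n (x - y)‖ := rfl
      _ ≤ ‖f i n‖ * ‖x - y‖ := (f i n).le_opNorm _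
      _ ≤ 1 * ‖x - y‖ := by gcongr; exact hnorm i n
      _ = ‖x - y‖ := one_mul _
  have h2 : ‖x - y‖ < η / (|a| + 1) := by
    rw [Metric.mem_ball, dist_comm, dist_eq_norm] at hy
    exact hy
  have h3 : η < |a| * |f i n x| := by simpa [abs_mul] using hi
  rw [lt_div_iff₀ (by positivity)] at h2
  have h4 := mul_le_mul_of_nonneg_left h1 (abs_nonneg a)
  nlinarith [norm_nonneg (x - y)]

lemma exists_norming {e : ι → ℕ → X} (hdense : Dense (spanOn e univ : Set X))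
    (ψ : StrongDual ℝ X) :
    ∃ T : Set ι, T.Finite ∧ ∃ x ∈ spanOn e T, ‖x‖ ≤ 1 ∧ ‖ψ‖ ≤ 2 * ψ x := by
  by_cases hψ : ψ = 0
  · exact ⟨∅, finite_empty, 0, Submodule.zero_mem _, by simp, by simp [hψ]⟩
  obtain ⟨x₀, -, h1, h2⟩ := exists_half_norming ψ
  have hopen : IsOpen {x : X | ‖x‖ < 1 ∧ ‖ψ‖ < 2 * ψ x} := by
    have o1 : IsOpen {x : X | ‖x‖ < 1} := isOpen_lt (by fun_prop) (by fun_prop)
    have o2 : IsOpen {x : X | ‖ψ‖ < 2 * ψ x} := isOpen_lt (by fun_prop) (by fun_prop)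
    exact o1.inter o2
  obtain ⟨x, hx1, hx2⟩ := hdense.inter_open_nonempty _ hopen ⟨x₀, h1, h2 hψ⟩
  obtain ⟨T, hT, hxT⟩ := exists_finite_supp e hx2
  exact ⟨T, hT, x, hxT, hx1.1.le, hx1.2.le⟩

/-- Finite sums of rational multiples of functionals with label in `H`. -/
def sumsOn (f : ι → ℕ → StrongDual ℝ X) (H : Set ι) : Set (StrongDual ℝ X) :=
  hull (fun (_ : Unit) (a b : StrongDual ℝ X) => a + b)
    (insert 0 {ψ | ∃ i ∈ H, ∃ n : ℕ, ∃ q : ℚ, ψ = (q : ℝ) • f i n})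

lemma sumsOn_countable (f : ι → ℕ → StrongDual ℝ X) {H : Set ι} (hH : H.Countable) :
    (sumsOn f H).Countable := by
  rw [← le_aleph0_iff_set_countable]
  refine mk_hull_le _ _ _ le_rfl ?_
  rw [le_aleph0_iff_set_countable]
  refine Countable.insert _ ?_
  have : {ψ | ∃ i ∈ H, ∃ n : ℕ, ∃ q : ℚ, ψ = (q : ℝ) • f i n} =
      ⋃ i ∈ H, range fun p : ℕ × ℚ => (p.2 : ℝ) • f i p.1 := by
    ext ψ
    simp [eq_comm]
  rw [this]
  exact hH.biUnion fun i _ => countable_range _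

lemma sum_mem_sumsOn (f : ι → ℕ → StrongDual ℝ X) {H : Set ι} {m : ℕ} (S : Finset (Fin m))
    (t : Fin m → ι) (n : Fin m → ℕ) (a : Fin m → ℚ) (h : ∀ k ∈ S, t k ∈ H) :
    ∑ k ∈ S, (a k : ℝ) • f (t k) (n k) ∈ sumsOn f H := by
  induction S using Finset.induction_on with
  | empty => exact subset_hull _ _ (by simp)
  | insert k S hk ih =>
    rw [Finset.sum_insert hk]
    refine op_mem_hull (fun (_ : Unit) (a b : StrongDual ℝ X) => a + b) _ () ?_
      (ih fun j hj => h j (Finset.mem_insert_of_mem hj))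
    exact subset_hull _ _ (mem_insert_of_mem _ ⟨t k, h k (Finset.mem_insert_self _ _), _, _, rfl⟩)

/-- Every countable set of labels lies in a countable set whose coordinate projection is bounded
on the finite rational sums. -/
lemma exists_closed {e : ι → ℕ → X} {f : ι → ℕ → StrongDual ℝ X}
    (horth : ∀ i j, i ≠ j → ∀ n m, f i n (e j m) = 0) (hdense : Dense (spanOn e univ : Set X))
    (T : Set ι) (hT : T.Countable) :
    ∃ H : Set ι, T ⊆ H ∧ H.Countable ∧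
      ∀ (m : ℕ) (t : Fin m → ι) (n : Fin m → ℕ) (a : Fin m → ℚ) (S : Finset (Fin m)),
        (∀ k, k ∈ S ↔ t k ∈ H) →
        ‖∑ k ∈ S, (a k : ℝ) • f (t k) (n k)‖ ≤ 2 * ‖∑ k, (a k : ℝ) • f (t k) (n k)‖ := by
  choose supp hsupp xn hxn using exists_norming hdense
  let G : Set ι → Set ι := fun U => U ∪ ⋃ ψ ∈ sumsOn f U, supp ψ
  have hGc : ∀ U : Set ι, U.Countable → (G U).Countable := fun U hU =>
    hU.union ((sumsOn_countable f hU).biUnion fun ψ _ => (hsupp ψ).countable)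
  have hmono : Monotone fun j : ℕ => G^[j] T := by
    refine monotone_nat_of_le_succ fun j => ?_
    rw [Function.iterate_succ_apply']
    exact subset_union_left
  refine ⟨⋃ j : ℕ, G^[j] T, subset_iUnion (fun j : ℕ => G^[j] T) 0, ?_, ?_⟩
  · refine countable_iUnion fun j => ?_
    induction j with
    | zero => exact hT
    | succ j ih =>
      rw [Function.iterate_succ_apply']
      exact hGc _ ih
  · intro m t n a S hS
    have h1 : ∀ k, ∃ j : ℕ, k ∈ S → t k ∈ G^[j] T := by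
      intro k
      by_cases hk : k ∈ S
      · obtain ⟨j, hj⟩ := mem_iUnion.1 ((hS k).1 hk)
        exact ⟨j, fun _ => hj⟩
      · exact ⟨0, fun h => absurd h hk⟩
    choose j hj using h1
    have h2 : ∀ k ∈ S, t k ∈ G^[Finset.univ.sup j] T := fun k hk =>
      hmono (Finset.le_sup (f := j) (Finset.mem_univ k)) (hj k hk)
    have h3 := sum_mem_sumsOn f S t n a h2
    set ψ := ∑ k ∈ S, (a k : ℝ) • f (t k) (n k) with hψ
    have h4 : supp ψ ⊆ ⋃ j : ℕ, G^[j] T := by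
      refine subset_trans ?_ (subset_iUnion _ (Finset.univ.sup j + 1))
      rw [Function.iterate_succ_apply']
      exact subset_union_of_subset_right (subset_biUnion_of_mem (u := supp) h3) _
    have h5 := spanOn_mono e h4 (hxn ψ).1
    have h6 : ψ (xn ψ) = (∑ k, (a k : ℝ) • f (t k) (n k)) (xn ψ) := by
      rw [← Finset.sum_add_sum_compl S, add_apply, ← hψ]
      have : (∑ k ∈ Sᶜ, (a k : ℝ) • f (t k) (n k)) (xn ψ) = 0 := by
        rw [sum_apply]
        refine Finset.sum_eq_zero fun k hk => ?_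
        have hk' : t k ∉ ⋃ j : ℕ, G^[j] T := fun h => (Finset.mem_compl.1 hk) ((hS k).2 h)
        rw [smul_apply, apply_eq_zero horth hk' _ h5, smul_zero]
      rw [this, add_zero]
    have h7 := (hxn ψ).2.2
    rw [h6] at h7
    refine h7.trans ?_
    have h8 : (∑ k, (a k : ℝ) • f (t k) (n k)) (xn ψ) ≤ ‖∑ k, (a k : ℝ) • f (t k) (n k)‖ :=
      calc (∑ k, (a k : ℝ) • f (t k) (n k)) (xn ψ)
          ≤ ‖(∑ k, (a k : ℝ) • f (t k) (n k)) (xn ψ)‖ := le_abs_self _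
        _ ≤ ‖∑ k, (a k : ℝ) • f (t k) (n k)‖ * ‖xn ψ‖ := ContinuousLinearMap.le_opNorm _ _
        _ ≤ ‖∑ k, (a k : ℝ) • f (t k) (n k)‖ * 1 := by gcongr; exact (hxn ψ).2.1
        _ = _ := mul_one _
    linarith

lemma exists_rho (H : Set ι) (hH : H.Countable) :
    ∃ r : ι → ℕ, ∀ i j, j ∈ H → r i = r j → i = j := by
  classical
  obtain ⟨g, hg⟩ := countable_iff_exists_injOn.1 hH
  refine ⟨fun i => if i ∈ H then g i + 1 else 0, fun i j hj h => ?_⟩
  by_cases hi : i ∈ H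
  · simp only [hi, hj, if_true] at h
    exact hg hi hj (by omega)
  · simp [hi, hj] at h

lemma exists_cut (code : ι → ℕ → Bool) (hcode : Function.Injective code) :
    ∃ cut : ℕ → ι → List Bool, ∀ (m : ℕ) (t : Fin m → ι) (Z : Set ι), Z.Finite →
      ∃ L, ∀ k, ∀ i ∈ Z, cut L i = cut L (t k) → i = t k := by
  refine ⟨fun L i => List.ofFn fun j : Fin L => code i j, fun m t Z hZ => ?_⟩
  have h1 : ∀ k i, ∀ᶠ L : ℕ in Filter.atTop,
      (List.ofFn fun j : Fin L => code i j) = (List.ofFn fun j : Fin L => code (t k) j) →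
        i = t k := by
    intro k i
    by_cases h : i = t k
    · exact Filter.Eventually.of_forall fun _ _ => h
    · obtain ⟨j, hj⟩ := Function.ne_iff.1 (hcode.ne h)
      filter_upwards [Filter.eventually_gt_atTop j] with L hL hEq
      exact absurd (congrFun (List.ofFn_injective hEq) ⟨j, hL⟩) hj
  have h2 : ∀ᶠ L : ℕ in Filter.atTop, ∀ k, ∀ i ∈ Z,
      (List.ofFn fun j : Fin L => code i j) = (List.ofFn fun j : Fin L => code (t k) j) →
        i = t k := by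
    rw [Filter.eventually_all]
    intro k
    rw [Filter.eventually_all_finite hZ]
    exact fun i _ => h1 k i
  exact h2.exists

lemma sums_dense (hX : Function.Surjective (NormedSpace.inclusionInDoubleDual ℝ X))
    (f : ι → ℕ → StrongDual ℝ X) (htotal : ∀ x, (∀ i n, f i n x = 0) → x = 0)
    (φ : StrongDual ℝ X) :
    φ ∈ closure {ψ | ∃ (m : ℕ) (t : Fin m → ι) (n : Fin m → ℕ) (a : Fin m → ℚ),
      ψ = ∑ k, (a k : ℝ) • f (t k) (n k)} := by
  refine mem_closure_of_kills hX (And.intro ?_ ?_) φ ?_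
  · exact ⟨0, Fin.elim0, Fin.elim0, Fin.elim0, by simp⟩
  · rintro q _ ⟨m, t, n, a, rfl⟩ _ ⟨m', t', n', a', rfl⟩
    refine ⟨m + m', Fin.append t t', Fin.append n n', Fin.append (fun k => q * a k) a', ?_⟩
    rw [Fin.sum_univ_add]
    simp [Fin.append_left, Fin.append_right, Finset.smul_sum, mul_smul]
  · intro w hw
    have : w = 0 := htotal w fun i n => by
      simpa using hw _ ⟨1, fun _ => i, fun _ => n, fun _ => 1, rfl⟩
    simp [this]

/-- The key estimate for two functionals of the same shape. -/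
lemma key_estimate (f : ι → ℕ → StrongDual ℝ X) {m : ℕ} (n : Fin m → ℕ) (a : Fin m → ℚ)
    (t t' : Fin m → ι) (z z' : X) (η : ℝ) (S : Finset (Fin m)) (hS : ∀ k ∈ S, t k = t' k)
    (h1 : ‖∑ k, (a k : ℝ) • f (t k) (n k)‖ ≤ 1) (h2 : ‖∑ k, (a k : ℝ) • f (t' k) (n k)‖ ≤ 1)
    (h3 : ‖∑ k ∈ S, (a k : ℝ) • f (t' k) (n k)‖ ≤ 2) (hη : 0 ≤ η)
    (h4 : ∀ k ∉ S, |(a k : ℝ) * f (t k) (n k) z'| ≤ η)
    (h5 : ∀ k ∉ S, |(a k : ℝ) * f (t' k) (n k) z| ≤ η) :
    (∑ k, (a k : ℝ) • f (t k) (n k)) z - (∑ k, (a k : ℝ) • f (t' k) (n k)) z' ≤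
      4 * dist z z' + 2 * (m * η) := by
  have hsmall : ∀ (u : Fin m → ι) (w : X), (∀ k ∉ S, |(a k : ℝ) * f (u k) (n k) w| ≤ η) →
      |(∑ k ∈ Sᶜ, (a k : ℝ) • f (u k) (n k)) w| ≤ m * η := by
    intro u w hw
    rw [sum_apply]
    refine (Finset.abs_sum_le_sum_abs _ _).trans ?_
    refine (Finset.sum_le_card_nsmul _ _ η fun k hk => ?_).trans ?_
    · simpa using hw k (Finset.mem_compl.1 hk)
    · rw [nsmul_eq_mul]
      gcongr
      exact_mod_cast (Finset.card_le_univ _).trans (Fintype.card_fin m).le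
  have hb : ∀ (ψ : StrongDual ℝ X) (K : ℝ), ‖ψ‖ ≤ K → |ψ z - ψ z'| ≤ K * dist z z' := by
    intro ψ K hK
    rw [← map_sub, dist_eq_norm]
    calc |ψ (z - z')| = ‖ψ (z - z')‖ := rfl
      _ ≤ ‖ψ‖ * ‖z - z'‖ := ψ.le_opNorm _
      _ ≤ K * ‖z - z'‖ := by gcongr
  have e0 : ∑ k ∈ S, (a k : ℝ) • f (t k) (n k) = ∑ k ∈ S, (a k : ℝ) • f (t' k) (n k) :=
    Finset.sum_congr rfl fun k hk => by rw [hS k hk]
  have e1 := Finset.sum_add_sum_compl S fun k => (a k : ℝ) • f (t k) (n k)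
  have e2 := Finset.sum_add_sum_compl S fun k => (a k : ℝ) • f (t' k) (n k)
  have b1 := abs_le.1 (hb _ 1 h1)
  have b2 := abs_le.1 (hb _ 1 h2)
  have b3 := abs_le.1 (hb _ 2 h3)
  have s1 := abs_le.1 (hsmall t z' h4)
  have s2 := abs_le.1 (hsmall t' z h5)
  rw [e0] at e1
  rw [← e1] at b1 ⊢
  rw [← e2] at b2 ⊢
  simp only [add_apply] at b1 b2 ⊢
  linarith [b1.2, b2.2, b3.1, s1.2, s2.1]

theorem embed_of_system (hX : Function.Surjective (NormedSpace.inclusionInDoubleDual ℝ X))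
    (e : ι → ℕ → X) (f : ι → ℕ → StrongDual ℝ X) (code : ι → ℕ → Bool)
    (hcode : Function.Injective code)
    (horth : ∀ i j, i ≠ j → ∀ n m, f i n (e j m) = 0) (hnorm : ∀ i n, ‖f i n‖ ≤ 1)
    (hdense : Dense (spanOn e univ : Set X)) (htotal : ∀ x, (∀ i n, f i n x = 0) → x = 0) :
    ∃ F : X → lp (fun _ : ℕ => ℝ) ⊤,
      ∀ x y, (1 / 8) * dist x y ≤ dist (F x) (F y) ∧ dist (F x) (F y) ≤ 4 * dist x y := by
  classical
  have hH : ∀ T : Set ι, ∃ H : Set ι, ∃ r : ι → ℕ, T.Countable → T ⊆ H ∧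
      (∀ i j, j ∈ H → r i = r j → i = j) ∧
      ∀ (m : ℕ) (t : Fin m → ι) (n : Fin m → ℕ) (a : Fin m → ℚ) (S : Finset (Fin m)),
        (∀ k, k ∈ S ↔ t k ∈ H) →
        ‖∑ k ∈ S, (a k : ℝ) • f (t k) (n k)‖ ≤ 2 * ‖∑ k, (a k : ℝ) • f (t k) (n k)‖ := by
    intro T
    by_cases hT : T.Countable
    · obtain ⟨H, h1, h2, h3⟩ := exists_closed horth hdense T hT
      obtain ⟨r, hr⟩ := exists_rho H h2
      exact ⟨H, r, fun _ => ⟨h1, hr, h3⟩⟩
    · exact ⟨∅, fun _ => 0, fun h => absurd h hT⟩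
  choose H ρ hH using hH
  obtain ⟨cut, hcut⟩ := exists_cut code hcode
  let C := Σ m : ℕ, (Fin m → ℕ) × (Fin m → ℚ) × ℕ × (Fin m → List Bool) × ℚ ×
    (Finset (Fin m) → Fin m → ℕ)
  let D : C → Type := fun c => {p : X × (Fin c.1 → ι) //
    (∀ k, cut c.2.2.2.1 (p.2 k) = c.2.2.2.2.1 k) ∧
    (∀ (S : Finset (Fin c.1)) k, ρ (p.2 '' S) (p.2 k) = c.2.2.2.2.2.2 S k) ∧
    ‖∑ k, (c.2.2.1 k : ℝ) • f (p.2 k) (c.2.1 k)‖ ≤ 1 ∧ (0 : ℝ) ≤ c.2.2.2.2.2.1 ∧
    ∀ k i, cut c.2.2.2.1 i = c.2.2.2.2.1 k → i ≠ p.2 k →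
      |(c.2.2.1 k : ℝ) * f i (c.2.1 k) p.1| ≤ c.2.2.2.2.2.1}
  have hF : ∀ c : C, ∃ F : X → ℝ, (∀ u v, F u - F v ≤ 4 * dist u v) ∧ ∀ p : D c,
      (∑ k, (c.2.2.1 k : ℝ) • f (p.1.2 k) (c.2.1 k)) p.1.1 - 2 * (c.1 * c.2.2.2.2.2.1) ≤ F p.1.1 ∧
      F p.1.1 ≤ (∑ k, (c.2.2.1 k : ℝ) • f (p.1.2 k) (c.2.1 k)) p.1.1 := by
    rintro ⟨m, n, a, L, w, η, τ⟩
    refine approx_mcshane (fun p : D ⟨m, n, a, L, w, η, τ⟩ => p.1.1)
      (fun p => (∑ k, (a k : ℝ) • f (p.1.2 k) (n k)) p.1.1) 4 _ (by norm_num) ?_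
    rintro ⟨⟨z, t⟩, hp1, hp2, hp3, hp4, hp5⟩ ⟨⟨z', t'⟩, hq1, hq2, hq3, -, hq5⟩
    dsimp only at hp1 hp2 hp3 hp4 hp5 hq1 hq2 hq3 hq5 t t' ⊢
    let S : Finset (Fin m) := Finset.univ.filter fun k => t k = t' k
    have hS : ∀ k, k ∈ S ↔ t k = t' k := fun k => by simp [S]
    have himg : t '' S = t' '' S := image_congr fun k hk => (hS k).1 hk
    obtain ⟨g1, g2, g3⟩ := hH (t' '' S) (S.finite_toSet.image _).countable
    have hSH : ∀ k, k ∈ S ↔ t' k ∈ H (t' '' S) := by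
      intro k
      constructor
      · intro hk
        exact g1 ⟨k, hk, rfl⟩
      · intro hk
        refine (hS k).2 (g2 _ _ hk ?_)
        rw [hq2, ← hp2, himg]
    have h3 := g3 m t' n a S hSH
    refine key_estimate f n a t t' z z' η S (fun k hk => (hS k).1 hk) hp3 hq3 (by linarith) hp4
      (fun k hk => hq5 k _ (hp1 k) fun h => hk ((hS k).2 h))
      (fun k hk => hp5 k _ (hq1 k) fun h => hk ((hS k).2 h.symm))
  choose F hF1 hF2 using hF
  have hne : Nonempty C := ⟨⟨0, Fin.elim0, Fin.elim0, 0, Fin.elim0, 0, fun _ => Fin.elim0⟩⟩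
  refine embed_of_family (C := C) 0 F 4 (1 / 8) (by norm_num) hF1 fun x y => ?_
  by_cases hxy : x = y
  · obtain ⟨c⟩ := hne
    exact ⟨c, by simp [hxy]⟩
  have hd : 0 < ‖x - y‖ := norm_pos_iff.2 (sub_ne_zero.2 hxy)
  obtain ⟨φ, hφ1, hφ2⟩ := exists_dual_vector'' ℝ (x - y)
  obtain ⟨ψ, ⟨m, t, n, a, hψ⟩, hψ2⟩ := Metric.mem_closure_iff.1
    (sums_dense hX f htotal ((1 / 2 : ℝ) • φ)) (1 / 4) (by norm_num)
  rw [dist_eq_norm] at hψ2
  have hψ3 : ‖ψ‖ ≤ 1 := by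
    have h1 : ‖ψ‖ ≤ ‖(1 / 2 : ℝ) • φ‖ + ‖(1 / 2 : ℝ) • φ - ψ‖ := by
      simpa using norm_sub_le ((1 / 2 : ℝ) • φ) ((1 / 2 : ℝ) • φ - ψ)
    rw [norm_smul] at h1
    norm_num at h1 hψ2
    linarith
  have hψ4 : (1 / 4) * ‖x - y‖ ≤ ψ x - ψ y := by
    have h1 : ((1 / 2 : ℝ) • φ - ψ) (x - y) ≤ (1 / 4) * ‖x - y‖ :=
      calc ((1 / 2 : ℝ) • φ - ψ) (x - y) ≤ ‖((1 / 2 : ℝ) • φ - ψ) (x - y)‖ := le_abs_self _
        _ ≤ ‖(1 / 2 : ℝ) • φ - ψ‖ * ‖x - y‖ := ContinuousLinearMap.le_opNorm _ _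
        _ ≤ (1 / 4) * ‖x - y‖ := by gcongr
    rw [sub_apply, smul_apply, hφ2, map_sub] at h1
    simp only [smul_eq_mul, RCLike.ofReal_real_eq_id, id] at h1
    linarith
  obtain ⟨η, hη1, hη2⟩ := exists_rat_btwn (show (0 : ℝ) < ‖x - y‖ / (16 * (m + 1)) by positivity)
  have hη3 : 2 * (m * (η : ℝ)) ≤ (1 / 8) * ‖x - y‖ := by
    rw [lt_div_iff₀ (by positivity)] at hη2
    nlinarith
  have hZ : (⋃ k : Fin m, ({i | (η : ℝ) < |(a k : ℝ) * f i (n k) x|} ∪
      {i | (η : ℝ) < |(a k : ℝ) * f i (n k) y|})).Finite :=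
    finite_iUnion fun k => (finite_large horth hnorm hdense x _ _ _ hη1).union
      (finite_large horth hnorm hdense y _ _ _ hη1)
  obtain ⟨L, hL⟩ := hcut m t _ hZ
  let c : C := ⟨m, n, a, L, fun k => cut L (t k), η, fun S k => ρ (t '' S) (t k)⟩
  let px : D c := ⟨(x, t), fun _ => rfl, fun _ _ => rfl, hψ ▸ hψ3, hη1.le, fun k i h1 h2 => by
    by_contra h3
    exact h2 (hL k i (mem_iUnion.2 ⟨k, Or.inl (not_le.1 h3)⟩) h1)⟩
  let py : D c := ⟨(y, t), fun _ => rfl, fun _ _ => rfl, hψ ▸ hψ3, hη1.le, fun k i h1 h2 => by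
    by_contra h3
    exact h2 (hL k i (mem_iUnion.2 ⟨k, Or.inr (not_le.1 h3)⟩) h1)⟩
  refine ⟨c, ?_⟩
  have h1 : ψ x - 2 * (m * (η : ℝ)) ≤ F c x := hψ ▸ (hF2 c px).1
  have h2 : F c y ≤ ψ y := hψ ▸ (hF2 c py).2
  rw [dist_eq_norm]
  linarith

theorem embed_of_reflexive [CompleteSpace X]
    (hX : Function.Surjective (NormedSpace.inclusionInDoubleDual ℝ X)) (D : Set X)
    (hD : Dense D) (hc : #D ≤ 𝔠) :
    ∃ F : X → lp (fun _ : ℕ => ℝ) ⊤,
      ∀ x y, (1 / 8) * dist x y ≤ dist (F x) (F y) ∧ dist (F x) (F y) ≤ 4 * dist x y := by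
  obtain ⟨𝓟, h𝓟⟩ := exists_decomp hX D hD hc
  have he : ∀ p : 𝓟, ∃ e : ℕ → X, insert 0 p.1.1 = range e := fun p =>
    ((h𝓟.count₁ p p.2).insert 0).exists_eq_range (insert_nonempty _ _)
  have hf : ∀ p : 𝓟, ∃ g : ℕ → StrongDual ℝ X, insert 0 p.1.2 = range g := fun p =>
    ((h𝓟.count₂ p p.2).insert 0).exists_eq_range (insert_nonempty _ _)
  choose e he using he
  choose g hg using hf
  have hcard : #𝓟 ≤ #(ℕ → Bool) := by simpa using h𝓟.card
  obtain ⟨code⟩ := (Cardinal.le_def _ _).1 hcard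
  refine embed_of_system hX e (fun p n => (‖g p n‖ + 1)⁻¹ • g p n) code code.injective ?_ ?_ ?_ ?_
  · intro i j hij n m
    have h1 : g i n ∈ insert 0 i.1.2 := hg i ▸ mem_range_self n
    have h2 : e j m ∈ insert 0 j.1.1 := he j ▸ mem_range_self m
    have : g i n (e j m) = 0 := by
      rcases h1 with h1 | h1
      · simp [h1]
      rcases h2 with h2 | h2
      · simp [h2]
      exact h𝓟.orth i i.2 j j.2 (fun h => hij (Subtype.ext h)) _ h1 _ h2
    simp [this]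
  · intro i n
    rw [norm_smul, norm_inv, Real.norm_eq_abs, abs_of_pos (by positivity),
      inv_mul_le_iff₀ (by positivity)]
    linarith
  · intro x
    refine closure_mono ?_ (h𝓟.dense x)
    refine Submodule.span_mono ?_
    intro y hy
    obtain ⟨p, hp, hy⟩ := mem_iUnion₂.1 hy
    have : y ∈ range (e ⟨p, hp⟩) := he ⟨p, hp⟩ ▸ mem_insert_of_mem _ hy
    obtain ⟨m, rfl⟩ := this
    exact ⟨⟨p, hp⟩, mem_univ _, m, rfl⟩
  · intro x hx
    refine h𝓟.total x fun p hp φ hφ => ?_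
    have : φ ∈ range (g ⟨p, hp⟩) := hg ⟨p, hp⟩ ▸ mem_insert_of_mem _ hφ
    obtain ⟨n, rfl⟩ := this
    have h := hx ⟨p, hp⟩ n
    have hpos : (‖g ⟨p, hp⟩ n‖ + 1)⁻¹ ≠ 0 := by positivity
    simpa [hpos] using h

end Pool.Agent.P.MP_16d9f2_an
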