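import Mathlib

/-!
A Baire tree of size continuum without uncountable chains: bounded subsets of the first uncountable
ordinal whose closure lies in a stationary and co-stationary set.
-/

set_option autoImplicit false

namespace Pool.Agent.P.MP_16d9f2_an

open Set Cardinal

/-- The first uncountable ordinal. -/
abbrev W1 : Type := (ℵ₁ : Cardinal.{0}).ord.ToType

lemma countable_Iic (a : W1) : (Iic a).Countable := by
  rw [← Iio_insert]
  refine Countable.insert _ (le_aleph0_iff_set_countable.1 (lt_aleph_one_iff.1 ?_))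
  simpa using mk_Iio_lt a (by simp)

lemma exists_bound {S : Set W1} (hS : S.Countable) : ∃ b, ∀ a ∈ S, a < b := by
  by_contra h
  push Not at h
  have : (univ : Set W1).Countable := (hS.biUnion fun a _ => countable_Iic a).mono fun b _ =>
    let ⟨a, h1, h2⟩ := h b
    mem_biUnion h1 h2
  simpa using lt_aleph_one_iff.2 (le_aleph0_iff_set_countable.2 this)

/-- `δ` is closed under `G`. -/
def Cls (G : List W1 → W1) (δ : W1) : Prop := ∀ l, (∀ γ ∈ l, γ < δ) → G l < δ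

/-- Stationary sets. -/
def Stat (A : Set W1) : Prop := ∀ G : List W1 → W1, ∃ δ ∈ A, Cls G δ

lemma countable_lists {α : Type} {S : Set α} (hS : S.Countable) :
    {l : List α | ∀ a ∈ l, a ∈ S}.Countable := by
  have := hS.to_subtype
  refine (countable_range (List.map ((↑) : S → α))).mono fun l hl => ?_
  exact ⟨l.attach.map fun a => ⟨a.1, hl a.1 a.2⟩, by simp⟩

lemma exists_cls (G : ℕ → List W1 → W1) (γ : W1) : ∃ δ, γ < δ ∧ ∀ n, Cls (G n) δ := by
  have h : ∀ a : W1, ∃ b, a < b ∧ ∀ n l, (∀ x ∈ l, x ≤ a) → G n l < b := fun a => by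
    obtain ⟨b, hb⟩ := exists_bound ((countable_iUnion fun n =>
      (countable_lists (countable_Iic a)).image (G n)).insert a)
    exact ⟨b, hb a (mem_insert _ _), fun n l hl =>
      hb _ (mem_insert_of_mem _ (mem_iUnion.2 ⟨n, l, hl, rfl⟩))⟩
  choose nx h1 h2 using h
  have hm : StrictMono fun k => nx^[k] γ := strictMono_nat_of_lt_succ fun k => by
    rw [Function.iterate_succ_apply']
    exact h1 _
  obtain ⟨b, hb⟩ := exists_bound (countable_range fun k => nx^[k] γ)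
  obtain ⟨δ, h3, h4⟩ := wellFounded_lt.has_min {δ | ∀ k, nx^[k] γ < δ}
    ⟨b, fun k => hb _ ⟨k, rfl⟩⟩
  refine ⟨δ, h3 0, fun n l hl => ?_⟩
  obtain ⟨k, hk⟩ : ∃ k, ∀ x ∈ l, x ≤ nx^[k] γ := by
    induction l with
    | nil => exact ⟨0, by simp⟩
    | cons x l ih =>
      obtain ⟨k, hk⟩ := ih fun y hy => hl y (List.mem_cons_of_mem _ hy)
      obtain ⟨j, hj⟩ : ∃ j, x ≤ nx^[j] γ := by
        by_contra hn
        push Not at hn
        exact h4 x hn (hl x List.mem_cons_self)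
      refine ⟨max k j, fun y hy => ?_⟩
      rcases List.mem_cons.1 hy with rfl | hy
      · exact hj.trans (hm.monotone (le_max_right _ _))
      · exact (hk y hy).trans (hm.monotone (le_max_left _ _))
  refine (h2 _ n l hk).trans ?_
  rw [← Function.iterate_succ_apply' nx]
  exact h3 _

lemma exists_bistat : ∃ A, Stat A ∧ Stat Aᶜ := by
  obtain ⟨e⟩ := (Cardinal.le_def W1 (ℕ → Prop)).1 (by simpa using aleph_one_le_continuum)
  by_contra h
  have : ∀ n, ∃ G, ∀ δ δ', Cls G δ → Cls G δ' → (e δ n ↔ e δ' n) := fun n => by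
    rcases not_and_or.1 (not_exists.1 h {δ | e δ n}) with h | h
    all_goals
      simp only [Stat, not_forall, not_exists, not_and] at h
      obtain ⟨G, hG⟩ := h
      refine ⟨G, fun δ δ' a b => ?_⟩
    · exact iff_of_false (fun c => hG δ c a) fun c => hG δ' c b
    · exact iff_of_true (by_contra fun c => hG δ c a) (by_contra fun c => hG δ' c b)
  choose G hG using this
  obtain ⟨b, -⟩ := exists_bound countable_empty
  obtain ⟨δ, -, h1⟩ := exists_cls G b
  obtain ⟨δ', h2, h3⟩ := exists_cls G δ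
  exact h2.ne (e.injective (funext fun n => propext (hG n _ _ (h1 n) (h3 n))))

/-- The nodes of the tree. -/
@[ext] structure Nd (A : Set W1) where
  r : ℝ
  top : W1
  c : Set W1
  mem : top ∈ c
  le : ∀ x ∈ c, x ≤ top
  cl : ∀ s ⊆ c, s.Nonempty → ∀ β, IsLUB s β → β ∈ A

namespace Nd

variable {A : Set W1}

instance : PartialOrder (Nd A) where
  le p q := p.r = q.r ∧ p.top ≤ q.top ∧ ∀ x, x ∈ p.c ↔ x ∈ q.c ∧ x ≤ p.top
  le_refl p := ⟨rfl, le_rfl, fun x => ⟨fun h => ⟨h, p.le x h⟩, And.left⟩⟩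
  le_trans p q s a b := ⟨a.1.trans b.1, a.2.1.trans b.2.1, fun x => by
    rw [a.2.2, b.2.2, and_assoc, and_iff_right_of_imp fun h : x ≤ p.top => h.trans a.2.1]⟩
  le_antisymm p q a b := Nd.ext a.1 (le_antisymm a.2.1 b.2.1)
    (Set.ext fun x => ⟨fun h => ((a.2.2 x).1 h).1, fun h => ((b.2.2 x).1 h).1⟩)

lemma le_of_le {p q s : Nd A} (a : p ≤ s) (b : q ≤ s) (h : p.top ≤ q.top) : p ≤ q :=
  ⟨a.1.trans b.1.symm, h, fun x => by
    rw [a.2.2, b.2.2, and_assoc, and_iff_right_of_imp fun k : x ≤ p.top => k.trans h]⟩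

lemma exists_above (hA : Stat A) (q : Nd A) (γ : W1) : ∃ q', q < q' ∧ γ < q'.top := by
  obtain ⟨α, h1, h2⟩ := hA fun _ => max γ q.top
  obtain ⟨h3, h4⟩ := max_lt_iff.1 (h2 [] (by simp))
  refine ⟨⟨q.r, α, insert α q.c, mem_insert _ _, ?_, fun s hs hn β hβ => ?_⟩,
    lt_of_le_of_ne ⟨rfl, h4.le, fun x => ⟨fun h => ⟨Or.inr h, q.le x h⟩, fun h => h.1.resolve_left
      fun e => absurd (e ▸ h.2) (not_le.2 h4)⟩⟩ fun e => h4.ne (congrArg Nd.top e), h3⟩
  · rintro x (rfl | hx)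
    · exact le_rfl
    · exact (q.le x hx).trans h4.le
  · by_cases h : α ∈ s
    · refine hβ.unique (IsGreatest.isLUB ⟨h, fun x hx => ?_⟩) ▸ h1
      exact (hs hx).elim Eq.le fun k => (q.le x k).trans h4.le
    · exact q.cl s (fun x hx => (hs hx).resolve_left fun e => h (e ▸ hx)) hn β hβ

lemma countable_chain (hA : Stat Aᶜ) {C : Set (Nd A)} (hC : IsChain (· ≤ ·) C) : C.Countable := by
  by_contra hn
  have h1 : ∀ γ, ∃ p ∈ C, γ < p.top := fun γ => by
    by_contra h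
    push Not at h
    refine hn (MapsTo.countable_of_injOn (f := Nd.top) (t := Iic γ) h (fun p hp q hq e => ?_)
      (countable_Iic γ))
    rcases hC.total hp hq with k | k
    · exact le_antisymm k (le_of_le le_rfl k e.ge)
    · exact le_antisymm (le_of_le le_rfl k e.le) k
  choose u hu1 hu2 using h1
  obtain ⟨b, -⟩ := exists_bound countable_empty
  obtain ⟨δ, h2, h3⟩ := hA fun l => (u (l.headD b)).top
  refine h2 ((u δ).cl ((u δ).c ∩ Iio δ) inter_subset_left ?_ δ ⟨fun x hx => le_of_lt hx.2, ?_⟩)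
  all_goals
    have h4 : ∀ γ, (u γ).top < δ → (u γ).top ∈ (u δ).c ∩ Iio δ := fun γ h =>
      ⟨(hC.total (hu1 γ) (hu1 δ)).elim (fun k => ((k.2.2 _).1 (u γ).mem).1)
        fun k => absurd (h.trans (hu2 δ)) (not_lt.2 k.2.1), h⟩
  · exact ⟨_, h4 b (h3 [] (by simp))⟩
  · intro γ hγ
    by_contra h
    exact absurd (hγ (h4 γ (h3 [γ] (by simpa using h)))) (not_le.2 (hu2 γ))

lemma baire (hA : Stat A) (p : Nd A) (E : ℕ → Set (Nd A))
    (hE : ∀ j q, p ≤ q → ∃ r ∈ E j, q ≤ r) : ∃ q, p ≤ q ∧ ∀ j, ∃ r ∈ E j, r ≤ q := by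
  have h : ∀ j q γ, ∃ r, p ≤ q → r ∈ E j ∧ q ≤ r ∧ γ < r.top := fun j q γ => by
    by_cases hq : p ≤ q
    · obtain ⟨q', a, b⟩ := exists_above hA q γ
      obtain ⟨r, c, d⟩ := hE j q' (hq.trans a.le)
      exact ⟨r, fun _ => ⟨c, a.le.trans d, b.trans_le d.2.1⟩⟩
    · exact ⟨q, fun k => absurd k hq⟩
  choose nx hnx using h
  obtain ⟨F, F0, F1⟩ : ∃ F : List W1 → Nd A, F [] = p ∧ ∀ γ l, F (γ :: l) = nx l.length (F l) γ :=
    ⟨fun l => l.rec p fun γ l q => nx l.length q γ, rfl, fun _ _ => rfl⟩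
  obtain ⟨δ, h1, h2⟩ := hA fun l => (F l).top
  obtain ⟨g, hg⟩ := ((countable_Iic δ).mono Iio_subset_Iic_self).exists_eq_range
    ⟨_, h2 [] (by simp)⟩
  obtain ⟨L, L0, L1⟩ : ∃ L : ℕ → List W1, L 0 = [] ∧ ∀ j, L (j + 1) = g j :: L j :=
    ⟨fun j => j.rec [] fun j l => g j :: l, rfl, fun _ => rfl⟩
  have hL : ∀ j, (L j).length = j ∧ ∀ γ ∈ L j, γ < δ := fun j => by
    induction j with
    | zero => simp [L0]
    | succ j ih =>
      rw [L1]
      exact ⟨congrArg (· + 1) ih.1, List.forall_mem_cons.2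
        ⟨(hg ▸ mem_range_self j : g j ∈ Iio δ), ih.2⟩⟩
  have hp : ∀ j, p ≤ F (L j) := fun j => by
    induction j with
    | zero => rw [L0, F0]
    | succ j ih =>
      rw [L1, F1]
      exact ih.trans (hnx _ _ _ ih).2.1
  have hs : ∀ j, F (L (j + 1)) ∈ E j ∧ F (L j) ≤ F (L (j + 1)) ∧ g j < (F (L (j + 1))).top :=
    fun j => by
      rw [L1, F1, (hL j).1]
      exact hnx j _ (g j) (hp j)
  have hm : Monotone fun j => F (L j) := monotone_nat_of_le_succ fun j => (hs j).2.1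
  have ht : ∀ j, (F (L j)).top < δ := fun j => h2 _ (hL j).2
  have hx : ∀ i j x, x ∈ (F (L i)).c → x ≤ (F (L j)).top → x ∈ (F (L j)).c := fun i j x a b =>
    (le_total i j).elim (fun k => (((hm k).2.2 x).1 a).1) fun k => ((hm k).2.2 x).2 ⟨a, b⟩
  have hx' : ∀ j x, x ∈ insert δ (⋃ i, (F (L i)).c) → x ≤ (F (L j)).top → x ∈ (F (L j)).c := by
    rintro j x (rfl | a) b
    · exact absurd (ht j) (not_lt.2 b)
    · obtain ⟨i, a⟩ := mem_iUnion.1 a
      exact hx i j x a b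
  have hδ : ∀ x ∈ insert δ (⋃ i, (F (L i)).c), x ≤ δ := by
    rintro x (rfl | a)
    · exact le_rfl
    · obtain ⟨i, a⟩ := mem_iUnion.1 a
      exact ((F (L i)).le x a).trans (ht i).le
  let q : Nd A := ⟨p.r, δ, insert δ (⋃ i, (F (L i)).c), mem_insert _ _, hδ, fun s a b β c => by
    rcases (c.2 fun x k => hδ x (a k)).eq_or_lt with rfl | k
    · exact h1
    · obtain ⟨j, rfl⟩ : β ∈ range g := hg ▸ k
      exact (F (L (j + 1))).cl s (fun x k => hx' _ x (a k) ((c.1 k).trans (hs j).2.2.le)) b _ c⟩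
  have hq : ∀ j, F (L j) ≤ q := fun j => ⟨(hp j).1.symm, (ht j).le, fun x =>
    ⟨fun a => ⟨Or.inr (mem_iUnion.2 ⟨j, a⟩), (F (L j)).le x a⟩, fun a => hx' j x a.1 a.2⟩⟩
  exact ⟨q, (hp 0).trans (hq 0), fun j => ⟨_, (hs j).1, hq _⟩⟩

lemma mk_eq (hA : Stat A) : #(Nd A) = 𝔠 := by
  refine le_antisymm ?_ ?_
  · choose g hg using fun p : Nd A => ((countable_Iic p.top).mono p.le).exists_eq_range ⟨_, p.mem⟩
    refine (mk_le_of_injective (f := fun p => (p.r, g p)) fun p q e => ?_).trans ?_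
    · have h : p.c = q.c := (hg p).trans ((congrArg (range ·.2) e).trans (hg q).symm)
      exact Nd.ext (Prod.ext_iff.1 e).1 (le_antisymm (q.le _ (h ▸ p.mem)) (p.le _ (h ▸ q.mem))) h
    · simp only [mk_prod, lift_id, mk_real, ← power_def, mk_nat, mk_ord_toType]
      refine (mul_le_mul' le_rfl (power_le_power_right aleph_one_le_continuum)).trans ?_
      simp
  · obtain ⟨b, -⟩ := exists_bound countable_empty
    obtain ⟨α, h, -⟩ := hA fun _ => b
    rw [← mk_real]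
    refine mk_le_of_injective (f := fun r : ℝ => (⟨r, α, {α}, rfl, fun x hx => le_of_eq hx,
      fun s a b β c => ?_⟩ : Nd A)) fun r r' e => congrArg Nd.r e
    rw [b.subset_singleton_iff.1 a] at c
    exact c.unique isLUB_singleton ▸ h

end Nd

/-- A Baire tree without uncountable chains. -/
structure IsBT (T : Type) [PartialOrder T] : Prop where
  card : #T = 𝔠
  tree : ∀ p q s : T, p ≤ s → q ≤ s → p ≤ q ∨ q ≤ p
  chain : ∀ C : Set T, IsChain (· ≤ ·) C → C.Countable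
  nomax : ∀ p : T, ∃ q, p < q
  baire : ∀ (p : T) (E : ℕ → Set T), (∀ j q, p ≤ q → ∃ r ∈ E j, q ≤ r) →
    ∃ q, p ≤ q ∧ ∀ j, ∃ r ∈ E j, r ≤ q

theorem exists_BT : ∃ (T : Type) (_ : PartialOrder T), IsBT T := by
  obtain ⟨A, h1, h2⟩ := exists_bistat
  exact ⟨Nd A, inferInstance, Nd.mk_eq h1, fun p q s a b => (le_total p.top q.top).imp
    (Nd.le_of_le a b) (Nd.le_of_le b a), fun _ => Nd.countable_chain h2,
    fun p => (Nd.exists_above h1 p p.top).imp fun _ => And.left, Nd.baire h1⟩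

end Pool.Agent.P.MP_16d9f2_an
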