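import Mathlib
import Pool.Agent.P.MP_16d9f2_an.Tree

/-!
The closed span of the indicators of the cones of a Baire tree without uncountable chains is weakly
Lindelof determined and does not embed into bounded sequences.
-/

set_option autoImplicit false

namespace Pool.Agent.P.MP_16d9f2_an

open Set Cardinal

/-- Weakly Lindelof determined: the dual unit ball with the weak-star topology is Corson compact,
that is, it embeds into the countably supported functions on a set with the pointwise topology. -/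
def WLD (X : Type) [NormedAddCommGroup X] [NormedSpace ℝ X] : Prop :=
  ∃ (Γ : Type) (h : WeakDual ℝ X → Γ → ℝ),
    ContinuousOn h {φ | ‖WeakDual.toStrongDual φ‖ ≤ 1} ∧
    InjOn h {φ | ‖WeakDual.toStrongDual φ‖ ≤ 1} ∧
    ∀ φ, ‖WeakDual.toStrongDual φ‖ ≤ 1 → (Function.support (h φ)).Countable

variable {T : Type} [PartialOrder T]

lemma countable_of_width (hT : ∀ C : Set T, IsChain (· ≤ ·) C → C.Countable) (k : ℕ) (U : Set T)
    (hU : ∀ F : Finset T, ↑F ⊆ U → IsAntichain (· ≤ ·) (F : Set T) → F.card ≤ k) :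
    U.Countable := by
  classical
  induction k generalizing U with
  | zero =>
    refine countable_empty.mono fun u hu => ?_
    simpa using hU {u} (by simpa using hu) (by simp)
  | succ k ih =>
    have hm := maxChain_spec (r := fun a b : U => a.1 ≤ b.1)
    have hc : (Subtype.val '' maxChain fun a b : U => a.1 ≤ b.1).Countable :=
      hT _ (hm.1.image_of_map_rel _ _ Subtype.val fun _ _ h => h)
    refine (hc.union (hc.biUnion (t := fun c _ => {u ∈ U | ¬ u ≤ c ∧ ¬ c ≤ u}) ?_)).mono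
      fun u hu => ?_
    · rintro _ ⟨c, -, rfl⟩
      refine ih _ fun F h1 h2 => ?_
      have h3 : c.1 ∉ F := fun h => (h1 h).2.1 le_rfl
      have := hU (insert c.1 F) (by
        rw [Finset.coe_insert]
        exact insert_subset c.2 fun u h => (h1 h).1) (by
        rw [Finset.coe_insert]
        exact h2.insert (fun u h _ => (h1 h).2.1) fun u h _ => (h1 h).2.2)
      rw [Finset.card_insert_of_notMem h3] at this
      omega
    · by_contra hn
      simp only [mem_union, mem_iUnion, not_or, not_exists] at hn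
      refine hn.1 ⟨⟨u, hu⟩, ?_, rfl⟩
      rw [hm.2 (hm.1.insert (a := ⟨u, hu⟩) fun c hc _ => ?_) (subset_insert _ _)]
      · exact mem_insert _ _
      · by_contra h
        exact hn.2 c ⟨c, hc, rfl⟩ ⟨hu, not_or.1 h⟩

open Classical in
/-- The indicator of a cone. -/
noncomputable def chi (t : T) : lp (fun _ : T => ℝ) ⊤ :=
  ⟨fun s => if t ≤ s then 1 else 0, memℓp_infty ⟨1, by
    rintro _ ⟨s, rfl⟩
    dsimp only
    split_ifs <;> simp⟩⟩

variable (T) in
/-- The closed span of the indicators of the cones. -/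
abbrev XT : Type := (Submodule.span ℝ (range (chi (T := T)))).topologicalClosure

/-- The indicator of a cone as an element of the space. -/
noncomputable def eT (t : T) : XT T :=
  ⟨chi t, Submodule.le_topologicalClosure _ (Submodule.subset_span ⟨t, rfl⟩)⟩

lemma eT_one {t s : T} (h : t ≤ s) : (eT t).1 s = 1 := if_pos h

lemma eT_zero {t s : T} (h : ¬ t ≤ s) : (eT t).1 s = 0 := if_neg h

lemma eT_mem (t s : T) : 0 ≤ (eT t).1 s ∧ (eT t).1 s ≤ 1 := by
  by_cases h : t ≤ s
  · simp [eT_one h]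
  · simp [eT_zero h]

lemma XT_le (x : XT T) (s : T) : |x.1 s| ≤ ‖x‖ := lp.norm_apply_le_norm ENNReal.top_ne_zero x.1 s

lemma XT_norm {x : XT T} {C : ℝ} (hC : 0 ≤ C) (h : ∀ s, |x.1 s| ≤ C) : ‖x‖ ≤ C :=
  lp.norm_le_of_forall_le hC h

lemma dense_eT : Dense (Submodule.span ℝ (range (eT (T := T))) : Set (XT T)) := by
  rw [Subtype.dense_iff]
  refine closure_mono fun x hx => ?_
  have := Submodule.map_span (Submodule.subtype _) (range (eT (T := T)))
  rw [← range_comp] at this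
  exact this.ge hx

lemma wld_XT (hT : IsBT T) : WLD (XT T) := by
  classical
  refine ⟨T, fun φ t => φ (eT t), (continuous_pi fun t => WeakDual.eval_continuous _).continuousOn,
    fun φ _ ψ _ h => ContinuousLinearMap.ext_on dense_eT ?_, fun φ hφ => ?_⟩
  · rintro _ ⟨t, rfl⟩
    exact congrFun h t
  have h : ∀ k : ℕ, {t | 1 / (k + 1 : ℝ) < |φ (eT t)|}.Countable := fun k => by
    refine countable_of_width hT.chain (k + 1) _ fun F h1 h2 => ?_
    have h3 : ‖∑ t ∈ F, (SignType.sign (φ (eT t)) : ℝ) • eT t‖ ≤ 1 := by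
      refine XT_norm zero_le_one fun s => ?_
      rw [show (∑ t ∈ F, (SignType.sign (φ (eT t)) : ℝ) • eT t).1 s =
        ∑ t ∈ F, (SignType.sign (φ (eT t)) : ℝ) * (eT t).1 s from
          map_sum (⟨⟨fun x => x.1 s, rfl⟩, fun _ _ => rfl⟩ : XT T →+ ℝ) _ _]
      by_cases h : ∃ t ∈ F, t ≤ s
      · obtain ⟨t, h4, h5⟩ := h
        rw [Finset.sum_eq_single t (fun u hu hne => by
          rw [eT_zero fun k => (hT.tree _ _ _ k h5).elim (h2 hu h4 hne) (h2 h4 hu hne.symm),
            mul_zero]) fun h => absurd h4 h, eT_one h5, mul_one]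
        rcases SignType.sign (φ (eT t)) with _ | _ | _ <;> simp
      · rw [Finset.sum_eq_zero fun u hu => by rw [eT_zero fun k => h ⟨u, hu, k⟩, mul_zero]]
        simp
    have h4 := ((WeakDual.toStrongDual φ).le_opNorm_of_le h3).trans (mul_le_one₀ hφ zero_le_one le_rfl)
    have h5 := Finset.card_nsmul_le_sum F (fun t => |φ (eT t)|) _ fun t ht => (h1 ht).le
    simp only [map_sum, map_smul, smul_eq_mul, WeakDual.coe_toStrongDual, sign_mul_self] at h4
    have h6 := h5.trans ((le_abs_self _).trans h4)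
    rw [nsmul_eq_mul, mul_one_div, div_le_one (by positivity)] at h6
    exact_mod_cast h6
  refine (countable_iUnion h).mono fun t ht => ?_
  obtain ⟨k, hk⟩ := exists_nat_one_div_lt (abs_pos.2 ht)
  exact mem_iUnion.2 ⟨k, hk⟩

lemma le_dense_XT (D : Set (XT T)) (hD : Dense D) : #T ≤ #D := by
  choose d hd1 hd2 using fun t : T => hD.exists_dist_lt (eT t) one_half_pos
  have h : ∀ t t', d t = d t' → t' ≤ t := fun t t' e => by_contra fun hn => by
    have h1 := dist_triangle_right (eT t) (eT t') (d t)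
    have h2 := hd2 t'
    have h3 : |(eT t).1 t - (eT t').1 t| ≤ _ := XT_le (eT t - eT t') t
    rw [← e] at h2
    rw [dist_eq_norm] at h1
    rw [eT_one le_rfl, eT_zero hn, sub_zero, abs_one] at h3
    linarith [hd2 t]
  exact mk_le_of_injective (f := fun t => (⟨d t, hd1 t⟩ : D)) fun t t' e =>
    le_antisymm (h _ _ (congrArg Subtype.val e).symm) (h _ _ (congrArg Subtype.val e))

lemma exists_dense_XT (hT : IsBT T) : ∃ D : Set (XT T), Dense D ∧ #D = 𝔠 := by
  refine ⟨_, dense_eT, le_antisymm ?_ (hT.card ▸ le_dense_XT _ dense_eT)⟩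
  have : Infinite T := infinite_iff.2 (hT.card ▸ aleph0_le_continuum)
  rw [← Finsupp.range_linearCombination ℝ (v := eT)]
  exact mk_range_le.trans_eq (by simp [mk_real, hT.card])

/-- One move of the game. -/
def Op (P : T → XT T → Prop) (p : T) (x : XT T) : Prop :=
  ∀ q, p ≤ q → ∃ a r, q < a ∧ a ≤ r ∧ P r (x + eT a)

/-- Predicates that persist along the order. -/
def Mon (P : T → XT T → Prop) : Prop := ∀ p q x, p ≤ q → P p x → P q x

lemma Mon.iter {P : T → XT T → Prop} (h : Mon P) (n : ℕ) : Mon (Op^[n] P) := by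
  cases n with
  | zero => exact h
  | succ n =>
    rw [Function.iterate_succ_apply']
    exact fun p q x a b s c => b s (a.trans c)

lemma op_colour (hT : IsBT T) {P : ℕ → T → XT T → Prop} (h : ∀ p x, ∃ j r, p ≤ r ∧ P j r x)
    (n : ℕ) : ∀ p x, ∃ j r, p ≤ r ∧ Op^[n] (P j) r x := by
  induction n with
  | zero => exact h
  | succ n ih =>
    intro p x
    simp only [Function.iterate_succ_apply']
    by_contra hn
    simp only [Op, not_exists, not_and, not_forall] at hn
    obtain ⟨q, -, h2⟩ := hT.baire p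
      (fun j => {q | ∀ a r, q < a → a ≤ r → ¬ Op^[n] (P j) r (x + eT a)}) fun j q hq =>
        let ⟨r, a, b⟩ := hn j q hq
        ⟨r, b, a⟩
    obtain ⟨a, h3⟩ := hT.nomax q
    obtain ⟨j, r, h4, h5⟩ := ih a (x + eT a)
    obtain ⟨q', h6, h7⟩ := h2 j
    exact h6 a r (h7.trans_lt h3) h4 h5

/-- The sum of the indicators of `n` cones between `p` and `r`. -/
def Gd (n : ℕ) (p r : T) (z : XT T) : Prop :=
  ∀ s, (0 ≤ z.1 s ∧ z.1 s ≤ n) ∧ (r ≤ s → z.1 s = n) ∧ (¬ p < s → z.1 s = 0)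

lemma Gd.add {n : ℕ} {p a q r : T} {z : XT T} (h : Gd n q r z) (h1 : p < a) (h2 : a ≤ q)
    (h3 : q ≤ r) : Gd (n + 1) p r (eT a + z) := fun s => by
  have e : (eT a + z).1 s = (eT a).1 s + z.1 s := rfl
  rw [e, Nat.cast_succ]
  refine ⟨⟨add_nonneg (eT_mem a s).1 (h s).1.1, by linarith [(eT_mem a s).2, (h s).1.2]⟩,
    fun k => ?_, fun k => ?_⟩
  · rw [eT_one (h2.trans (h3.trans k)), (h s).2.1 k, add_comm]
  · rw [eT_zero fun j => k (h1.trans_le j), (h s).2.2 fun j => k (h1.trans (h2.trans_lt j)),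
      add_zero]

lemma two_plays {P P' : T → XT T → Prop} (h : Mon P) (n : ℕ) : ∀ p x x',
    Op^[n] P p x → Op^[n] P' p x' → ∃ r z z', p ≤ r ∧ P r (x + z) ∧ P' r (x' + z') ∧
      Gd n p r z ∧ Gd n p r z' ∧ ∀ s, |z.1 s - z'.1 s| ≤ 1 := by
  induction n with
  | zero =>
    exact fun p x x' a b => ⟨p, 0, 0, le_rfl, by simpa using a, by simpa using b,
      fun s => by simp, fun s => by simp, fun s => by simp⟩
  | succ n ih =>
    intro p x x' H H'
    rw [Function.iterate_succ_apply'] at H H'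
    obtain ⟨a, q, a1, a2, a3⟩ := H p le_rfl
    obtain ⟨b, q', b1, b2, b3⟩ := H' q (a1.le.trans a2)
    have c0 : a ≤ q' := a2.trans (b1.le.trans b2)
    obtain ⟨r, z, z', c1, c2, c3, c4, c5, c6⟩ := ih q' _ _ (h.iter n _ _ _ (b1.le.trans b2) a3) b3
    refine ⟨r, eT a + z, eT b + z', a1.le.trans (c0.trans c1), by rwa [← add_assoc],
      by rwa [← add_assoc], c4.add a1 c0 c1, c5.add (a1.trans_le (a2.trans b1.le)) b2 c1,
      fun s => ?_⟩
    show |(eT a).1 s + z.1 s - ((eT b).1 s + z'.1 s)| ≤ 1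
    by_cases k : q' < s
    · rw [eT_one (c0.trans k.le), eT_one (b2.trans k.le), add_sub_add_left_eq_sub]
      exact c6 s
    · rw [(c4 s).2.2 k, (c5 s).2.2 k, abs_le]
      constructor <;> linarith [eT_mem a s, eT_mem b s]

lemma exists_pairs (hT : IsBT T) (n : ℕ) (c : XT T → XT T → ℕ) : ∃ x y x' y', c x y = c x' y' ∧
    ‖x‖ ≤ n ∧ ‖y‖ ≤ n ∧ ‖x'‖ ≤ n ∧ n ≤ ‖x - y‖ ∧ ‖y - x'‖ ≤ 1 := by
  have : Infinite T := infinite_iff.2 (hT.card ▸ aleph0_le_continuum)
  have m0 : ∀ x j, Mon (T := T) fun _ y => c x y = j := fun _ _ _ _ _ _ h => h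
  have m1 : ∀ j, Mon (T := T) fun r x => Op^[n] (fun _ y => c x y = j) r 0 :=
    fun j p q x => (m0 x j).iter n p q 0
  obtain ⟨j, p, -, H⟩ := op_colour hT (P := fun j r x => Op^[n] (fun _ y => c x y = j) r 0)
    (fun p x => op_colour hT (P := fun j _ y => c x y = j) (fun p y => ⟨_, p, le_rfl, rfl⟩) n p 0)
    n (Classical.arbitrary T) 0
  obtain ⟨r, x, -, a1, a2, -, a3, -⟩ := two_plays (m1 j) n p 0 0 H H
  obtain ⟨r', y, x', -, b2, b3, b4, b5, b6⟩ :=
    two_plays (m0 _ j) n r 0 0 a2 ((m1 j).iter n _ _ _ a1 H)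
  obtain ⟨-, y', -, -, c2, -⟩ := two_plays (m0 _ j) n r' 0 0 b3 b3
  have hn : ∀ {p r : T} {z}, Gd n p r z → ‖z‖ ≤ n := fun h => XT_norm n.cast_nonneg fun s => by
    rw [abs_of_nonneg (h s).1.1]
    exact (h s).1.2
  simp only [zero_add] at b2 c2
  refine ⟨x, y, x', y', b2.trans c2.symm, hn a3, hn b4, hn b5, le_trans ?_ (XT_le _ r),
    XT_norm zero_le_one b6⟩
  show _ ≤ |x.1 r - y.1 r|
  rw [(a3 r).2.1 le_rfl, (b4 r).2.2 (lt_irrefl r), sub_zero]
  exact le_abs_self _

theorem no_embed (hT : IsBT T) (f : XT T → lp (fun _ : ℕ => ℝ) ⊤) (r R a b : ℝ) (hr : 0 < r)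
    (hR : 0 < R) (h1 : ∀ x y, ‖x‖ ≤ R → ‖y‖ ≤ R → dist x y ≤ r → dist (f x) (f y) ≤ a)
    (h2 : ∀ x y, ‖x‖ ≤ R → ‖y‖ ≤ R → R ≤ dist x y → b ≤ dist (f x) (f y)) : b ≤ a := by
  refine le_of_forall_pos_le_add fun ε hε => ?_
  obtain ⟨n, hn⟩ := exists_nat_gt (R / r)
  have n0 : (0 : ℝ) < n := (div_pos hR hr).trans hn
  have l0 : 0 < R / n := div_pos hR n0
  have hc : ∀ x y, ∃ c : ℕ × ℚ, |f x c.1 - c.2| ≤ ε / 4 ∧
      (b ≤ dist (f x) (f y) → b - ε / 4 ≤ |f x c.1 - f y c.1|) := fun x y => by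
    obtain ⟨i, hi⟩ : ∃ i, b ≤ dist (f x) (f y) → b - ε / 4 ≤ |f x i - f y i| := by
      by_contra h
      push Not at h
      have := lp.norm_le_of_forall_le (f := f x - f y) ((abs_nonneg _).trans (h 0).2.le)
        fun i => (h i).2.le
      rw [← dist_eq_norm] at this
      linarith [(h 0).1]
    obtain ⟨q, hq⟩ := exists_rat_near (f x i) (show 0 < ε / 4 by positivity)
    exact ⟨(i, q), hq.le, hi⟩
  choose c c1 c2 using hc
  obtain ⟨x, y, x', y', e, a1, a2, a3, a4, a5⟩ := exists_pairs hT n fun x y =>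
    Encodable.encode (c ((R / n) • x) ((R / n) • y))
  have hs : ∀ z : XT T, ‖(R / n) • z‖ = R / n * ‖z‖ := fun z => by
    rw [norm_smul, Real.norm_of_nonneg l0.le]
  have hb : ∀ z : XT T, ‖z‖ ≤ n → ‖(R / n) • z‖ ≤ R := fun z h =>
    (hs z).trans_le ((mul_le_mul_of_nonneg_left h l0.le).trans_eq (div_mul_cancel₀ _ n0.ne'))
  have k1 := c2 _ _ (h2 _ _ (hb x a1) (hb y a2) (by
    rw [dist_eq_norm, ← smul_sub, hs]
    exact (div_mul_cancel₀ _ n0.ne').symm.trans_le (mul_le_mul_of_nonneg_left a4 l0.le)))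
  have k2 := h1 _ _ (hb y a2) (hb x' a3) (by
    rw [dist_eq_norm, ← smul_sub, hs]
    refine (mul_le_of_le_one_right l0.le a5).trans ?_
    rw [div_lt_iff₀ hr] at hn
    rw [div_le_iff₀ n0]
    linarith)
  have k3 := c1 ((R / n) • x) ((R / n) • y)
  have k4 := c1 ((R / n) • x') ((R / n) • y')
  rw [← Encodable.encode_injective e] at k4
  generalize c ((R / n) • x) ((R / n) • y) = d at k1 k3 k4
  rw [dist_eq_norm] at k2
  have k5 : |f ((R / n) • y) d.1 - f ((R / n) • x') d.1| ≤ a :=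
    (lp.norm_apply_le_norm ENNReal.top_ne_zero _ d.1).trans k2
  rw [abs_le] at k3 k4 k5
  rcases le_abs'.1 k1 with k | k <;> linarith [k3.1, k3.2, k4.1, k4.2, k5.1, k5.2]

end Pool.Agent.P.MP_16d9f2_an
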