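import Mathlib
import Pool.Agent.P.MP_16d9f2_an.Embed

/-!
A linearly dense family whose norming functionals are small on countably many index sets gives an
embedding into bounded sequences with good constants.
-/

set_option autoImplicit false

namespace Pool.Agent.P.MP_16d9f2_an

open Set Cardinal

lemma embed_of_family' {X : Type*} [PseudoMetricSpace X] {C : Type*} [Countable C] [Nonempty C]
    (x₀ : X) (F : C → X → ℝ) (K l : ℝ) (hK : 0 ≤ K) (hl0 : 0 ≤ l)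
    (hF : ∀ c u v, F c u - F c v ≤ K * dist u v)
    (hl : ∀ u v, ∀ ε > 0, ∃ c, dist u v - ε ≤ l * (F c u - F c v)) :
    ∃ f : X → lp (fun _ : ℕ => ℝ) ⊤,
      ∀ x y, dist x y ≤ l * dist (f x) (f y) ∧ dist (f x) (f y) ≤ K * dist x y := by
  obtain ⟨s, hs⟩ := exists_surjective_nat C
  have habs : ∀ c u v, |F c u - F c v| ≤ K * dist u v := by
    intro c u v
    rw [abs_le]
    have h1 := hF c u v
    have h2 := hF c v u
    rw [dist_comm] at h2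
    constructor <;> linarith
  have hmem : ∀ x, Memℓp (fun j : ℕ => F (s j) x - F (s j) x₀) ⊤ := by
    intro x
    refine memℓp_infty ⟨K * dist x x₀, ?_⟩
    rintro _ ⟨j, rfl⟩
    exact habs _ _ _
  refine ⟨fun x => ⟨_, hmem x⟩, fun x y => ⟨?_, ?_⟩⟩
  · refine le_of_forall_pos_le_add fun ε hε => ?_
    obtain ⟨c, hc⟩ := hl x y ε hε
    obtain ⟨j, rfl⟩ := hs c
    rw [← sub_le_iff_le_add]
    refine hc.trans (mul_le_mul_of_nonneg_left ?_ hl0)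
    rw [dist_eq_norm]
    refine le_trans ?_ (lp.norm_apply_le_norm ENNReal.top_ne_zero _ j)
    show _ ≤ ‖(F (s j) x - F (s j) x₀) - (F (s j) y - F (s j) x₀)‖
    rw [sub_sub_sub_cancel_right]
    exact le_abs_self _
  · rw [dist_eq_norm]
    refine lp.norm_le_of_forall_le (mul_nonneg hK dist_nonneg) fun j => ?_
    show ‖(F (s j) x - F (s j) x₀) - (F (s j) y - F (s j) x₀)‖ ≤ _
    rw [sub_sub_sub_cancel_right]
    exact habs _ _ _

variable {X : Type} [NormedAddCommGroup X] [NormedSpace ℝ X] {Γ N : Type}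

lemma apply_le_norm {φ : StrongDual ℝ X} (h : ‖φ‖ ≤ 1) (x : X) : φ x ≤ ‖x‖ :=
  (le_abs_self _).trans ((φ.le_opNorm x).trans (mul_le_of_le_one_left (norm_nonneg _) h))

/-- Small functionals are countably supported. -/
lemma countable_supp (e : Γ → X) [Countable N] (G : N → Set Γ) (φ : StrongDual ℝ X)
    (hG : ∀ η > 0, ∀ γ, ∃ n, γ ∈ G n ∧ ∀ γ' ∈ G n, γ' ≠ γ → |φ (e γ')| ≤ η) :
    {γ | φ (e γ) ≠ 0}.Countable := by
  have h : ∀ j : ℕ, {γ | (1 : ℝ) / (j + 1) < |φ (e γ)|}.Countable := by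
    intro j
    choose n hn using hG (1 / (j + 1)) (by positivity)
    refine MapsTo.countable_of_injOn (f := n) (mapsTo_univ _ _) (fun γ hγ γ' _ h => ?_)
      countable_univ
    by_contra hne
    exact absurd ((hn γ').2 γ (h ▸ (hn γ).1) hne) (not_le.2 hγ)
  refine (countable_iUnion h).mono fun γ hγ => ?_
  obtain ⟨j, hj⟩ := exists_nat_one_div_lt (abs_pos.2 hγ)
  exact mem_iUnion.2 ⟨j, hj⟩

lemma exists_skolem (e : Γ → X) (nm : X → StrongDual ℝ X) (l : ℝ) (hl : 0 ≤ l)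
    (hnm : ∀ x, ‖nm x‖ ≤ 1 ∧ ‖x‖ ≤ l * nm x x) (hc : ∀ x, {γ | nm x (e γ) ≠ 0}.Countable)
    (T : Set Γ) (hT : T.Countable) :
    ∃ H : Set Γ, H.Countable ∧ ∀ u ∈ Submodule.span ℝ (e '' T),
      ∀ w ∈ Submodule.span ℝ (e '' Hᶜ), ‖u‖ ≤ l * ‖u + w‖ := by
  obtain ⟨D, hD, hDs⟩ := (hT.image e).isSeparable.span (R := ℝ)
  refine ⟨⋃ d ∈ D, {γ | nm d (e γ) ≠ 0}, hD.biUnion fun d _ => hc d, fun u hu w hw => ?_⟩
  have hcl : IsClosed {u : X | ‖u‖ ≤ l * ‖u + w‖} := isClosed_le (by fun_prop) (by fun_prop)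
  refine hcl.closure_subset_iff.2 (fun d hd => ?_) (hDs hu)
  have h0 : nm d w = 0 := by
    refine Submodule.span_le (p := LinearMap.ker (nm d : X →ₗ[ℝ] ℝ)).2 ?_ hw
    rintro _ ⟨γ, hγ, rfl⟩
    by_contra h
    exact hγ (mem_biUnion hd h)
  have h1 := apply_le_norm (hnm d).1 (d + w)
  rw [map_add, h0, add_zero] at h1
  exact (hnm d).2.trans (mul_le_mul_of_nonneg_left h1 hl)

lemma sum_small {m : ℕ} (S : Finset (Fin m)) (a b : Fin m → ℝ) (M η : ℝ) (hη : 0 ≤ η)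
    (hM : 0 ≤ M) (ha : ∀ k, |a k| ≤ M) (hb : ∀ k ∈ S, |b k| ≤ η) :
    |∑ k ∈ S, a k * b k| ≤ m * (M * η) := by
  refine (Finset.abs_sum_le_sum_abs _ _).trans ?_
  refine (Finset.sum_le_card_nsmul _ _ (M * η) fun k hk => ?_).trans ?_
  · rw [abs_mul]
    exact mul_le_mul (ha k) (hb k hk) (abs_nonneg _) hM
  · rw [nsmul_eq_mul]
    gcongr
    exact_mod_cast (Finset.card_le_univ _).trans (Fintype.card_fin m).le

lemma three_estimate {m : ℕ} (v v' : Fin m → X) (a a' : Fin m → ℝ) (φ φ' : StrongDual ℝ X)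
    (S : Finset (Fin m)) (M η l : ℝ) (hη : 0 ≤ η) (hM : 0 ≤ M) (hφ : ‖φ‖ ≤ 1) (hφ' : ‖φ'‖ ≤ 1)
    (ha : ∀ k, |a k| ≤ M) (ha' : ∀ k, |a' k| ≤ M) (hS : ∀ k ∈ S, v k = v' k)
    (h1 : ∀ k ∈ Sᶜ, |φ (v' k)| ≤ η) (h2 : ∀ k ∈ Sᶜ, |φ' (v k)| ≤ η)
    (h3 : ∀ k ∈ S, |φ (v k) - φ' (v k)| ≤ 2 * η)
    (h4 : ‖∑ k ∈ S, a' k • v k - ∑ k ∈ S, a k • v k‖ ≤ l * ‖∑ k, a k • v k - ∑ k, a' k • v' k‖) :
    φ (∑ k, a k • v k) - φ' (∑ k, a' k • v' k) ≤
      (2 + l) * ‖∑ k, a k • v k - ∑ k, a' k • v' k‖ + 4 * (m * (M * η)) := by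
  have b1 := apply_le_norm hφ (∑ k, a k • v k - ∑ k, a' k • v' k)
  have b2 := apply_le_norm hφ' (∑ k, a k • v k - ∑ k, a' k • v' k)
  have b3 := (apply_le_norm hφ _).trans h4
  have s1 := abs_le.1 (sum_small Sᶜ a' _ M η hη hM ha' h1)
  have s2 := abs_le.1 (sum_small Sᶜ a _ M η hη hM ha h2)
  have s3 := abs_le.1 (sum_small S a _ M (2 * η) (by linarith) hM ha h3)
  have e0 : ∑ k ∈ S, a' k * φ (v' k) = ∑ k ∈ S, a' k * φ (v k) :=
    Finset.sum_congr rfl fun k hk => by rw [hS k hk]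
  have e1 := Finset.sum_add_sum_compl S fun k => a' k * φ (v' k)
  have e2 := Finset.sum_add_sum_compl S fun k => a k * φ' (v k)
  generalize ‖∑ k, a k • v k - ∑ k, a' k • v' k‖ = d at *
  simp only [map_sub, map_sum, map_smul, smul_eq_mul, mul_sub, Finset.sum_sub_distrib] at *
  linarith [s1.2, s2.1, s3.2]

theorem embed_master (e : Γ → X) (hd : Dense (Submodule.span ℝ (range e) : Set X))
    (nm : X → StrongDual ℝ X) (l : ℝ) (hl : 0 ≤ l) (hnm : ∀ x, ‖nm x‖ ≤ 1 ∧ ‖x‖ ≤ l * nm x x)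
    [Countable N] (G : N → Set Γ)
    (hG : ∀ x, ∀ η > 0, ∀ γ, ∃ n, γ ∈ G n ∧ ∀ γ' ∈ G n, γ' ≠ γ → |nm x (e γ')| ≤ η) :
    ∃ f : X → lp (fun _ : ℕ => ℝ) ⊤,
      ∀ x y, dist x y ≤ l * dist (f x) (f y) ∧ dist (f x) (f y) ≤ (2 + l) * dist x y := by
  classical
  have hH : ∀ T : Set Γ, ∃ H : Set Γ, ∃ r : Γ → ℕ, T.Countable →
      (∀ i j, j ∈ H → r i = r j → i = j) ∧ ∀ u ∈ Submodule.span ℝ (e '' T),
        ∀ w ∈ Submodule.span ℝ (e '' Hᶜ), ‖u‖ ≤ l * ‖u + w‖ := by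
    intro T
    by_cases hT : T.Countable
    · obtain ⟨H, h1, h2⟩ := exists_skolem e nm l hl hnm
        (fun x => countable_supp e G _ (hG x)) T hT
      obtain ⟨r, hr⟩ := exists_rho H h1
      exact ⟨H, r, fun _ => ⟨hr, h2⟩⟩
    · exact ⟨∅, fun _ => 0, fun h => absurd h hT⟩
  choose H ρ hH using hH
  let C := Σ m : ℕ, (Fin m → N) × (Fin m → ℚ) × ℕ × ℚ × (Finset (Fin m) → Fin m → ℕ)
  let D : C → Type := fun c => {p : StrongDual ℝ X × (Fin c.1 → Γ) × (Fin c.1 → ℝ) //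
    ‖p.1‖ ≤ 1 ∧ (0 : ℝ) ≤ c.2.2.2.2.1 ∧ (∀ k, |p.2.2 k| ≤ c.2.2.2.1) ∧
    (∀ (S : Finset (Fin c.1)) k, ρ (p.2.1 '' S) (p.2.1 k) = c.2.2.2.2.2 S k) ∧
    (∀ k, |p.1 (e (p.2.1 k)) - c.2.2.1 k| ≤ c.2.2.2.2.1) ∧
    ∀ k, p.2.1 k ∈ G (c.2.1 k) ∧ ∀ γ ∈ G (c.2.1 k), γ ≠ p.2.1 k → |p.1 (e γ)| ≤ c.2.2.2.2.1}
  have hF : ∀ c : C, ∃ F : X → ℝ, (∀ u v, F u - F v ≤ (2 + l) * dist u v) ∧ ∀ p : D c,
      p.1.1 (∑ k, p.1.2.2 k • e (p.1.2.1 k)) - 4 * (c.1 * (c.2.2.2.1 * c.2.2.2.2.1)) ≤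
        F (∑ k, p.1.2.2 k • e (p.1.2.1 k)) ∧
      F (∑ k, p.1.2.2 k • e (p.1.2.1 k)) ≤ p.1.1 (∑ k, p.1.2.2 k • e (p.1.2.1 k)) := by
    rintro ⟨m, n, q, M, η, τ⟩
    refine approx_mcshane (fun p : D ⟨m, n, q, M, η, τ⟩ => ∑ k, p.1.2.2 k • e (p.1.2.1 k))
      (fun p => p.1.1 (∑ k, p.1.2.2 k • e (p.1.2.1 k))) _ _ (by linarith) ?_
    rintro ⟨⟨φ, t, a⟩, p1, p2, p3, p4, p5, p6⟩ ⟨⟨φ', t', a'⟩, q1, -, q3, q4, q5, q6⟩
    dsimp only at p1 p2 p3 p4 p5 p6 q1 q3 q4 q5 q6 t t' a a' ⊢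
    let S : Finset (Fin m) := Finset.univ.filter fun k => t k = t' k
    have hS : ∀ k, k ∈ S ↔ t k = t' k := fun k => by simp [S]
    have hS' : ∀ k ∈ Sᶜ, t k ≠ t' k := fun k hk h => Finset.mem_compl.1 hk ((hS k).2 h)
    have himg : t '' S = t' '' S := image_congr fun k hk => (hS k).1 hk
    obtain ⟨g1, g2⟩ := hH (t '' S) (S.finite_toSet.image _).countable
    have hρ : ∀ k, ρ (t '' S) (t k) = ρ (t '' S) (t' k) := fun k => by
      rw [p4, himg, q4]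
    rw [dist_eq_norm]
    refine three_estimate (fun k => e (t k)) (fun k => e (t' k)) a a' φ φ' S M η l p2
      (Nat.cast_nonneg _) p1 q1 p3 q3 (fun k hk => by rw [(hS k).1 hk])
      (fun k hk => (p6 k).2 _ (q6 k).1 (hS' k hk).symm)
      (fun k hk => (q6 k).2 _ (p6 k).1 (hS' k hk)) (fun k hk => ?_) ?_
    · have h1 := abs_le.1 (p5 k)
      have h2 := abs_le.1 (q5 k)
      rw [← (hS k).1 hk] at h2
      exact abs_le.2 ⟨by linarith, by linarith⟩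
    · have hu : ∀ b : Fin m → ℝ, ∑ k ∈ S, b k • e (t k) ∈ Submodule.span ℝ (e '' (t '' S)) :=
        fun b => Submodule.sum_mem _ fun k hk => Submodule.smul_mem _ _
          (Submodule.subset_span ⟨_, ⟨k, hk, rfl⟩, rfl⟩)
      have := g2 _ (Submodule.sub_mem _ (hu a') (hu a))
        (∑ k ∈ Sᶜ, a' k • e (t' k) - ∑ k ∈ Sᶜ, a k • e (t k)) (Submodule.sub_mem _
          (Submodule.sum_mem _ fun k hk => Submodule.smul_mem _ _
            (Submodule.subset_span ⟨_, fun h => hS' k hk (g1 _ _ h (hρ k)), rfl⟩))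
          (Submodule.sum_mem _ fun k hk => Submodule.smul_mem _ _
            (Submodule.subset_span ⟨_, fun h => hS' k hk (g1 _ _ h (hρ k).symm).symm, rfl⟩)))
      refine this.trans_eq ?_
      have e0 : ∑ k ∈ S, a' k • e (t' k) = ∑ k ∈ S, a' k • e (t k) :=
        Finset.sum_congr rfl fun k hk => by rw [(hS k).1 hk]
      rw [norm_sub_rev (∑ k, a k • e (t k)), ← Finset.sum_add_sum_compl S,
        ← Finset.sum_add_sum_compl S fun k => a k • e (t k), e0]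
      congr 2
      abel
  choose F hF1 hF2 using hF
  have hne : Nonempty C := ⟨⟨0, Fin.elim0, Fin.elim0, 0, 0, fun _ => Fin.elim0⟩⟩
  refine embed_of_family' (C := C) 0 F _ l (by linarith) hl hF1 fun x y ε hε => ?_
  obtain ⟨δ, hδ, hδε⟩ : ∃ δ > 0, (2 + l * (2 * (2 + l) + 4)) * δ ≤ ε :=
    ⟨ε / (2 + l * (2 * (2 + l) + 4)), by positivity, by rw [mul_div_cancel₀]; positivity⟩
  obtain ⟨x', hx', hxx⟩ := hd.exists_dist_lt x hδ
  obtain ⟨y', hy', hyy⟩ := hd.exists_dist_lt y hδ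
  obtain ⟨m, t, a, b, rfl, rfl⟩ : ∃ (m : ℕ) (t : Fin m → Γ) (a b : Fin m → ℝ),
      x' = ∑ k, a k • e (t k) ∧ y' = ∑ k, b k • e (t k) := by
    obtain ⟨m, a, g, rfl⟩ := Submodule.mem_span_set'.1 hx'
    obtain ⟨m', b, g', rfl⟩ := Submodule.mem_span_set'.1 hy'
    choose t ht using fun k => (g k).2
    choose t' ht' using fun k => (g' k).2
    exact ⟨m + m', Fin.append t t', Fin.append a 0, Fin.append 0 b,
      by simp [Fin.sum_univ_add, ht], by simp [Fin.sum_univ_add, ht']⟩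
  obtain ⟨M, hM⟩ := exists_nat_ge (∑ k, (|a k| + |b k|))
  have hab : ∀ k, |a k| + |b k| ≤ M := fun k => (Finset.single_le_sum
    (f := fun k => |a k| + |b k|) (fun k _ => by positivity) (Finset.mem_univ k)).trans hM
  obtain ⟨η, hη1, hη2⟩ := exists_rat_btwn (show (0 : ℝ) < δ / (m * M + 1) by positivity)
  have hη3 : m * (M * (η : ℝ)) ≤ δ := by
    rw [lt_div_iff₀ (by positivity)] at hη2
    nlinarith
  set z := ∑ k, a k • e (t k) - ∑ k, b k • e (t k) with hz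
  choose n hn using fun k => hG z η hη1 (t k)
  choose q hq using fun k => exists_rat_near (nm z (e (t k))) hη1
  let c : C := ⟨m, n, q, M, η, fun S k => ρ (t '' S) (t k)⟩
  have h1 := (hF2 c ⟨(nm z, t, a), (hnm z).1, hη1.le, fun k => by
    linarith [hab k, abs_nonneg (b k)], fun _ _ => rfl, fun k => (hq k).le, hn⟩).1
  have h2 := (hF2 c ⟨(nm z, t, b), (hnm z).1, hη1.le, fun k => by
    linarith [hab k, abs_nonneg (a k)], fun _ _ => rfl, fun k => (hq k).le, hn⟩).2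
  dsimp only [c] at h1 h2
  refine ⟨c, ?_⟩
  have h3 := hF1 c (∑ k, a k • e (t k)) x
  have h4 := hF1 c y (∑ k, b k • e (t k))
  have h5 := (hnm z).2
  have h6 := dist_triangle4 x (∑ k, a k • e (t k)) (∑ k, b k • e (t k)) y
  rw [dist_comm] at h3
  rw [dist_eq_norm _ (∑ k, b k • e (t k)), ← hz] at h6
  have h7 : nm z z - (2 * (2 + l) + 4) * δ ≤ F c x - F c y := by
    have : nm z z = nm z (∑ k, a k • e (t k)) - nm z (∑ k, b k • e (t k)) := map_sub _ _ _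
    have h8 := mul_le_mul_of_nonneg_left hxx.le (show 0 ≤ 2 + l by linarith)
    have h9 := mul_le_mul_of_nonneg_left hyy.le (show 0 ≤ 2 + l by linarith)
    linarith
  have := mul_le_mul_of_nonneg_left h7 hl
  rw [dist_comm y] at hyy
  linarith

end Pool.Agent.P.MP_16d9f2_an
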