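import Mathlib
import Pool.Agent.P.MP_16d9f2_an.Three

/-!
Projections in weakly countably determined spaces.
-/

set_option autoImplicit false

namespace Pool.Agent.P.MP_16d9f2_an

open Set Cardinal Filter

section LHull

variable {I T : Type}

/-- Operations on lists as binary operations. -/
def lop (op : I → List T → T) : Option I → List T → List T → List T
  | none, a, b => a ++ b
  | some i, a, _ => [op i a]

/-- The closure of a set under a family of operations on lists. -/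
def lhull (op : I → List T → T) (S : Set T) : Set T :=
  {a | [a] ∈ hull (lop op) (insert [] ((fun a => [a]) '' S))}

lemma subset_lhull (op : I → List T → T) (S : Set T) : S ⊆ lhull op S := fun a ha =>
  subset_hull _ _ (mem_insert_of_mem _ ⟨a, ha, rfl⟩)

lemma op_mem_lhull (op : I → List T → T) (S : Set T) (i : I) {l : List T}
    (hl : ∀ a ∈ l, a ∈ lhull op S) : op i l ∈ lhull op S := by
  have : l ∈ hull (lop op) (insert [] ((fun a => [a]) '' S)) := by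
    induction l with
    | nil => exact subset_hull _ _ (mem_insert _ _)
    | cons a l ih =>
      exact op_mem_hull (lop op) _ none (hl a List.mem_cons_self)
        (ih fun b hb => hl b (List.mem_cons_of_mem _ hb))
  exact op_mem_hull (lop op) _ (some i) this this

lemma lhull_subset (op : I → List T → T) {S N : Set T} (hS : S ⊆ N)
    (hN : ∀ i l, (∀ a ∈ l, a ∈ N) → op i l ∈ N) : lhull op S ⊆ N := by
  intro a ha
  refine hull_subset (lop op) (N := {l | ∀ a ∈ l, a ∈ N}) ?_ ?_ ha a List.mem_cons_self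
  · rintro _ (rfl | ⟨b, hb, rfl⟩)
    · simp
    · simpa using hS hb
  · rintro (_ | i) l hl l' hl' b hb
    · exact (List.mem_append.1 hb).elim (hl b) (hl' b)
    · rw [List.mem_singleton.1 hb]
      exact hN i l hl

lemma mk_lhull_le [Countable I] (op : I → List T → T) (S : Set T) (κ : Cardinal) (hκ : ℵ₀ ≤ κ)
    (hS : #S ≤ κ) : #(lhull op S) ≤ κ := by
  refine (mk_preimage_of_injective (fun a => [a]) _ List.singleton_injective).trans ?_
  refine mk_hull_le _ _ κ hκ (mk_insert_le.trans ?_)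
  exact add_le_of_le hκ (mk_image_le.trans hS) (one_le_aleph0.trans hκ)

end LHull

variable {X : Type} [NormedAddCommGroup X] [NormedSpace ℝ X] {N : Type}

/-- A family of sets which forces weak limits to exist. -/
structure WSys (K : N → Set X) : Prop where
  top : ∃ n, K n = Set.univ
  inter : ∀ n n', ∃ n'', K n'' = K n ∩ K n'
  lim : ∀ (x : X) (l : Filter X), l.NeBot → (∀ n, x ∈ K n → K n ∈ l) →
    ∃ y, ∀ (φ : StrongDual ℝ X) (C : Set ℝ), IsClosed C → (∀ᶠ v in l, φ v ∈ C) → φ y ∈ C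

lemma exists_proj' [CompleteSpace X] {A : Set X} {B : Set (StrongDual ℝ X)} (hA : QClosed A)
    (K : ℝ) (h1 : ∀ x ∈ A, ∃ φ ∈ B, ‖φ‖ ≤ K ∧ ‖x‖ ≤ φ x)
    (h2 : ∀ x, ∃ y ∈ closure A, ∀ φ ∈ B, φ y = φ x) :
    ∃ P : X →L[ℝ] X, (∀ x, P x ∈ closure A) ∧ (∀ x, ∀ φ ∈ B, φ (P x) = φ x) ∧
      (∀ y ∈ closure A, P y = y) ∧ (∀ w, (∀ φ ∈ B, φ w = 0) → P w = 0) := by
  let Y : Submodule ℝ X := clo A hA
  let W : Submodule ℝ X := ⨅ φ ∈ B, LinearMap.ker (φ : X →ₗ[ℝ] ℝ)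
  have hW : ∀ w, w ∈ W ↔ ∀ φ ∈ B, φ w = 0 := by
    intro w
    simp [W]
  have hYc : IsClosed (Y : Set X) := isClosed_closure
  have hWc : IsClosed (W : Set X) := by
    have : (W : Set X) = ⋂ φ ∈ B, {w | φ w = 0} := by
      ext w
      simp [hW]
    rw [this]
    exact isClosed_biInter fun φ _ => isClosed_eq φ.continuous continuous_const
  have hcompl : IsCompl Y W := by
    constructor
    · rw [Submodule.disjoint_def]
      intro x hx hw
      have hcl : IsClosed {y : X | ‖y‖ ≤ K * ‖y - x‖} := isClosed_le (by fun_prop) (by fun_prop)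
      have : x ∈ {y : X | ‖y‖ ≤ K * ‖y - x‖} := by
        refine hcl.closure_subset_iff.2 (fun y hy => ?_) hx
        obtain ⟨φ, hφ, hφ1, hφ2⟩ := h1 y hy
        have e : φ y = φ (y - x) := by rw [map_sub, (hW x).1 hw φ hφ, sub_zero]
        calc ‖y‖ ≤ φ (y - x) := e ▸ hφ2
          _ ≤ ‖φ (y - x)‖ := le_abs_self _
          _ ≤ ‖φ‖ * ‖y - x‖ := φ.le_opNorm _
          _ ≤ K * ‖y - x‖ := by gcongr
      simpa using this
    · rw [codisjoint_iff, eq_top_iff]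
      intro x _
      obtain ⟨y, hy, h⟩ := h2 x
      exact Submodule.mem_sup.2 ⟨y, hy, x - y, (hW _).2 fun φ hφ => by
        rw [map_sub, h φ hφ, sub_self], add_sub_cancel _ _⟩
  have htop : Submodule.IsTopCompl Y W := Submodule.IsCompl.isTopCompl_of_isClosed hcompl hYc hWc
  refine ⟨Y.projectionL W htop, fun x => ?_, fun x φ hφ => ?_, fun y hy => ?_, fun w hw => ?_⟩
  · exact Submodule.projectionL_apply_mem htop x
  · have h := (hW _).1 (Submodule.projectionL_apply_mem htop.symm x) φ hφ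
    have e := Submodule.projectionL_add_projectionL_eq_self htop x
    conv_rhs => rw [← e]
    rw [map_add, h, add_zero]
  · exact Submodule.projectionL_apply_left htop ⟨y, hy⟩
  · exact Submodule.projectionL_apply_right htop ⟨w, (hW w).2 hw⟩

/-- A pair of sets closed under the generator splits the space. -/
lemma WSys.split {K : N → Set X} (hK : WSys K) {M : Set (X × StrongDual ℝ X)}
    (hA : QClosed (Prod.fst '' M)) (x : X)
    (h : ∀ n, x ∈ K n → ∀ l : List (X × StrongDual ℝ X), (∀ a ∈ l, a ∈ M) → ∀ ε > 0,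
      ∃ v ∈ Prod.fst '' M, v ∈ K n ∧ ∀ a ∈ l, |a.2 v - a.2 x| ≤ ε) :
    ∃ y ∈ closure (Prod.fst '' M), ∀ φ ∈ Prod.snd '' M, φ y = φ x := by
  let J := {j : N × List (X × StrongDual ℝ X) × ℝ // x ∈ K j.1 ∧ (∀ a ∈ j.2.1, a ∈ M) ∧ 0 < j.2.2}
  let V : J → Set X := fun j =>
    {v | v ∈ Prod.fst '' M ∧ v ∈ K j.1.1 ∧ ∀ a ∈ j.1.2.1, |a.2 v - a.2 x| ≤ j.1.2.2}
  obtain ⟨n0, hn0⟩ := hK.top
  have hx0 : x ∈ K n0 := hn0 ▸ mem_univ x
  have hV : ∀ j, V j ∈ ⨅ j, 𝓟 (V j) := fun j => mem_iInf_of_mem j (mem_principal_self _)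
  have hdir : Directed (· ≥ ·) fun j => 𝓟 (V j) := by
    rintro ⟨⟨n, l, ε⟩, h1, h2, h3⟩ ⟨⟨n', l', ε'⟩, h1', h2', h3'⟩
    obtain ⟨n'', hn⟩ := hK.inter n n'
    refine ⟨⟨(n'', l ++ l', min ε ε'), hn ▸ ⟨h1, h1'⟩,
      fun a ha => (List.mem_append.1 ha).elim (h2 a) (h2' a), lt_min h3 h3'⟩, ?_, ?_⟩
    · refine principal_mono.2 fun v hv => ⟨hv.1, (hn ▸ hv.2.1 : v ∈ K n ∩ K n').1, fun a ha => ?_⟩
      exact (hv.2.2 a (List.mem_append_left _ ha)).trans (min_le_left _ _)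
    · refine principal_mono.2 fun v hv => ⟨hv.1, (hn ▸ hv.2.1 : v ∈ K n ∩ K n').2, fun a ha => ?_⟩
      exact (hv.2.2 a (List.mem_append_right _ ha)).trans (min_le_right _ _)
  obtain ⟨y, hy⟩ := hK.lim x (⨅ j, 𝓟 (V j)) (iInf_neBot_of_directed (hn := ⟨x⟩) hdir fun j =>
    principal_neBot_iff.2 (h _ j.2.1 _ j.2.2.1 _ j.2.2.2)) fun n hn =>
      mem_of_superset (hV ⟨(n, [], 1), hn, by simp, one_pos⟩) fun v hv => hv.2.1
  refine ⟨y, ?_, ?_⟩
  · by_contra hn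
    obtain ⟨φ, h1, h2⟩ := exists_annihilator (clo _ hA) isClosed_closure hn
    exact h2 (hy φ {0} isClosed_singleton (mem_of_superset
      (hV ⟨(n0, [], 1), hx0, by simp, one_pos⟩) fun v hv => h1 v (subset_closure hv.1)))
  · rintro _ ⟨a, ha, rfl⟩
    refine eq_of_forall_dist_le fun ε hε => ?_
    exact hy a.2 (Metric.closedBall (a.2 x) ε) Metric.isClosed_closedBall (mem_of_superset
      (hV ⟨(n0, [a], ε), hx0, by simpa using ha, hε⟩) fun v hv => hv.2.2 a List.mem_cons_self)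

/-- The properties of the family of projections attached to subsets of the range of `Q`. -/
def Fam (Q : X →L[ℝ] X) : Prop :=
  ∃ (n1 : X → StrongDual ℝ X) (M : Set X → Set (X × StrongDual ℝ X)) (P : Set X → X →L[ℝ] X),
    (∀ x, ‖n1 x‖ ≤ 1 ∧ n1 x x = ‖x‖) ∧
    (∀ S S', S ⊆ S' → M S ⊆ M S') ∧
    (∀ S, ∀ d ∈ S, (d, 0) ∈ M S) ∧
    (∀ S, ∀ d ∈ S, ∃ a ∈ M S, a.2 = (n1 d).comp Q) ∧
    (∀ (S : Set X) (κ : Cardinal.{0}), ℵ₀ ≤ κ → #S ≤ κ → #(M S) ≤ κ) ∧
    (∀ (J : Type) [LinearOrder J] (e : J → X) (α : J), ∀ a ∈ M (e '' Iio α),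
      a = 0 ∨ ∃ β < α, a ∈ M (e '' Iic β)) ∧
    (∀ S, (∀ d ∈ S, Q d = d) →
      (∀ a ∈ M S, Q a.1 = a.1 ∧ ∀ x, a.2 (Q x) = a.2 x) ∧
      (∀ x, P S x ∈ closure (Prod.fst '' M S)) ∧ (∀ x, ∀ a ∈ M S, a.2 (P S x) = a.2 x) ∧
      (∀ y ∈ closure (Prod.fst '' M S), P S y = y) ∧
      (∀ w, (∀ a ∈ M S, a.2 w = 0) → P S w = 0))

lemma exists_rat_list (l : List ℝ) {ε : ℝ} (hε : 0 < ε) :
    ∃ q : List ℚ, List.Forall₂ (fun (r : ℝ) (q : ℚ) => |r - q| ≤ ε) l q := by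
  induction l with
  | nil => exact ⟨[], .nil⟩
  | cons r l ih =>
    obtain ⟨q, hq⟩ := ih
    obtain ⟨p, hp⟩ := exists_rat_near r hε
    exact ⟨p :: q, .cons hp.le hq⟩

lemma near_of_rat_list {A : Type} (f g : A → ℝ) {ε : ℝ} {l : List A} {q : List ℚ}
    (h1 : List.Forall₂ (fun (r : ℝ) (q : ℚ) => |r - q| ≤ ε) (l.map f) q)
    (h2 : List.Forall₂ (fun (r : ℝ) (q : ℚ) => |r - q| ≤ ε) (l.map g) q) :
    ∀ a ∈ l, |f a - g a| ≤ 2 * ε := by
  induction l generalizing q with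
  | nil => simp
  | cons b l ih =>
    obtain _ | ⟨e1, e2⟩ := h1
    obtain _ | ⟨e3, e4⟩ := h2
    intro a ha
    rcases List.mem_cons.1 ha with rfl | ha
    · rw [abs_le] at *
      constructor <;> linarith [e1.1, e1.2, e3.1, e3.2]
    · exact ih e2 e4 a ha

lemma WSys.fam [CompleteSpace X] [Countable N] {K : N → Set X} (hK : WSys K) (Q : X →L[ℝ] X)
    (hQ : ∀ x, Q (Q x) = Q x) : Fam Q := by
  classical
  obtain ⟨n1, -, hn1⟩ := exists_n1 (X := X)
  have hgen : ∀ (i : N × List ℚ × ℚ) (l : List (X × StrongDual ℝ X)), ∃ v, Q v = v ∧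
      ∀ x, Q x = x → x ∈ K i.1 →
        List.Forall₂ (fun (r : ℝ) (q : ℚ) => |r - q| ≤ i.2.2) (l.map fun a => a.2 x) i.2.1 →
        v ∈ K i.1 ∧
        List.Forall₂ (fun (r : ℝ) (q : ℚ) => |r - q| ≤ i.2.2) (l.map fun a => a.2 v) i.2.1 := by
    intro i l
    by_cases h : ∃ x, Q x = x ∧ x ∈ K i.1 ∧
        List.Forall₂ (fun (r : ℝ) (q : ℚ) => |r - q| ≤ i.2.2) (l.map fun a => a.2 x) i.2.1
    · obtain ⟨x, h1, h2⟩ := h
      exact ⟨x, h1, fun _ _ _ _ => h2⟩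
    · exact ⟨0, map_zero _, fun x h1 h2 h3 => absurd ⟨x, h1, h2, h3⟩ h⟩
  choose gen hgen1 hgen2 using hgen
  let op : ℚ ⊕ (N × List ℚ × ℚ) → List (X × StrongDual ℝ X) → X × StrongDual ℝ X := fun i l =>
    match i, l with
    | .inl q, [a, b] => (q : ℝ) • a + b
    | .inl _, [a] => (0, (n1 a.1).comp Q)
    | .inl _, _ => 0
    | .inr i, l => (gen i l, 0)
  let M' : Set X → Set (X × StrongDual ℝ X) := fun S => lhull op ((fun d => (d, 0)) '' S)
  let M : Set X → Set (X × StrongDual ℝ X) := fun S => if S = ∅ then {0} else M' S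
  have hM0 : ∀ S, (0 : X × StrongDual ℝ X) ∈ M' S := fun S =>
    op_mem_lhull op _ (.inl 0) (l := []) (by simp)
  have hmono : ∀ S S', S ⊆ S' → M' S ⊆ M' S' := fun S S' h =>
    lhull_subset op ((image_mono h).trans (subset_lhull _ _)) fun i l hl => op_mem_lhull op _ i hl
  have hMM : ∀ S, M S ⊆ M' S := fun S => by
    simp only [M]
    split_ifs
    · exact singleton_subset_iff.2 (hM0 S)
    · exact subset_rfl
  have hMe : ∀ {S d}, d ∈ S → M S = M' S := fun hd => if_neg (Set.Nonempty.ne_empty ⟨_, hd⟩)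
  have hn : ∀ S, ∀ a ∈ M' S, (0, (n1 a.1).comp Q) ∈ M' S := fun S a ha =>
    op_mem_lhull op _ (.inl 0) (l := [a]) (by simpa using ha)
  have hfix : ∀ S, (∀ d ∈ S, Q d = d) → ∀ a ∈ M' S, Q a.1 = a.1 ∧ ∀ x, a.2 (Q x) = a.2 x := by
    intro S hS
    refine lhull_subset op (N := {a | Q a.1 = a.1 ∧ ∀ x, a.2 (Q x) = a.2 x}) ?_ ?_
    · rintro a ⟨d, hd, rfl⟩
      exact ⟨hS d hd, by simp⟩
    · rintro (q | i) l hl
      · obtain _ | ⟨a, _ | ⟨b, _ | ⟨c, l⟩⟩⟩ := l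
        · simp [op]
        · simp [op, hQ]
        · have ha := hl a (by simp)
          have hb := hl b (by simp)
          simp [op, ha.1, hb.1, ha.2, hb.2]
        · simp [op]
      · exact ⟨hgen1 _ _, by simp [op]⟩
  have hP : ∀ S : Set X, ∃ P : X →L[ℝ] X, (∀ d ∈ S, Q d = d) →
      (∀ x, P x ∈ closure (Prod.fst '' M S)) ∧ (∀ x, ∀ a ∈ M S, a.2 (P x) = a.2 x) ∧
        (∀ y ∈ closure (Prod.fst '' M S), P y = y) ∧
        (∀ w, (∀ a ∈ M S, a.2 w = 0) → P w = 0) := by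
    intro S
    by_cases hS : ∀ d ∈ S, Q d = d
    swap
    · exact ⟨0, fun h => absurd h hS⟩
    rcases S.eq_empty_or_nonempty with rfl | ⟨d, hd⟩
    · exact ⟨0, fun _ => by simp [M]⟩
    rw [hMe hd]
    have hA : QClosed (Prod.fst '' M' S) := by
      refine ⟨⟨0, hM0 S, rfl⟩, ?_⟩
      rintro q _ ⟨a, ha, rfl⟩ _ ⟨b, hb, rfl⟩
      exact ⟨_, op_mem_lhull op _ (.inl q) (l := [a, b]) (by simpa using ⟨ha, hb⟩), rfl⟩
    obtain ⟨P, h1, h2, h3, h4⟩ := exists_proj' (B := Prod.snd '' M' S) hA ‖Q‖ (by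
      rintro _ ⟨a, ha, rfl⟩
      refine ⟨_, ⟨_, hn S a ha, rfl⟩, ?_, ?_⟩
      · exact (ContinuousLinearMap.opNorm_comp_le _ _).trans
          (mul_le_of_le_one_left (norm_nonneg _) (hn1 _).1)
      · show ‖a.1‖ ≤ n1 a.1 (Q a.1)
        rw [(hfix S hS a ha).1, (hn1 _).2]) (by
      intro x
      obtain ⟨y, hy1, hy2⟩ := hK.split hA (Q x) fun n hx l hl ε hε => by
        obtain ⟨δ, hδ1, hδ2⟩ := exists_rat_btwn (half_pos hε)
        obtain ⟨q, hq⟩ := exists_rat_list (l.map fun a => a.2 (Q x)) hδ1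
        obtain ⟨g1, g2⟩ := hgen2 (n, q, δ) l _ (hQ x) hx hq
        exact ⟨_, ⟨_, op_mem_lhull op _ (.inr (n, q, δ)) hl, rfl⟩, g1, fun a ha =>
          (near_of_rat_list _ _ g2 hq a ha).trans (by linarith)⟩
      refine ⟨y, hy1, fun φ hφ => (hy2 φ hφ).trans ?_⟩
      obtain ⟨a, ha, rfl⟩ := hφ
      exact (hfix S hS a ha).2 x)
    refine ⟨P, fun _ => ⟨h1, fun x a ha => h2 x _ ⟨a, ha, rfl⟩, h3, fun w hw => h4 w ?_⟩⟩
    rintro _ ⟨a, ha, rfl⟩
    exact hw a ha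
  choose P hP using hP
  have hMd : ∀ S, ∀ d ∈ S, (d, 0) ∈ M' S := fun S d hd => subset_lhull _ _ ⟨d, hd, rfl⟩
  refine ⟨n1, M, P, hn1, fun S S' h => ?_, fun S d hd => hMe hd ▸ hMd S d hd,
    fun S d hd => ⟨_, hMe hd ▸ hn S _ (hMd S d hd), rfl⟩, fun S κ hκ hS => ?_, ?_,
    fun S hS => ⟨fun a ha => hfix S hS a (hMM S ha), hP S hS⟩⟩
  · rcases S'.eq_empty_or_nonempty with rfl | ⟨d, hd⟩
    · rw [subset_empty_iff.1 h]
    · exact hMe hd ▸ (hMM S).trans (hmono S S' h)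
  · exact (mk_le_mk_of_subset (hMM S)).trans (mk_lhull_le op _ κ hκ (mk_image_le.trans hS))
  · intro J _ e α a ha
    rcases (e '' Iio α).eq_empty_or_nonempty with h | ⟨_, β0, hβ0, rfl⟩
    · exact Or.inl (by simpa [M, h] using ha)
    have hM : ∀ β, M (e '' Iic β) = M' (e '' Iic β) := fun β => hMe ⟨β, mem_Iic.2 le_rfl, rfl⟩
    simp only [hM]
    refine Or.inr (lhull_subset op (N := {a | ∃ β < α, a ∈ M' (e '' Iic β)}) ?_ ?_ (hMM _ ha))
    · rintro a ⟨_, ⟨β, hβ, rfl⟩, rfl⟩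
      exact ⟨β, hβ, hMd _ _ ⟨β, mem_Iic.2 le_rfl, rfl⟩⟩
    · intro i l hl
      obtain ⟨β, hβ, h⟩ : ∃ β < α, ∀ a ∈ l, a ∈ M' (e '' Iic β) := by
        induction l with
        | nil => exact ⟨β0, hβ0, by simp⟩
        | cons b l ih =>
          obtain ⟨β, hβ, h⟩ := ih fun a ha => hl a (List.mem_cons_of_mem _ ha)
          obtain ⟨γ, hγ, h'⟩ := hl b List.mem_cons_self
          refine ⟨max β γ, max_lt hβ hγ, fun a ha => ?_⟩
          rcases List.mem_cons.1 ha with rfl | ha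
          · exact hmono _ _ (image_mono (Iic_subset_Iic.2 (le_max_right _ _))) h'
          · exact hmono _ _ (image_mono (Iic_subset_Iic.2 (le_max_left _ _))) (h a ha)
      exact ⟨β, hβ, op_mem_lhull op _ i h⟩

end Pool.Agent.P.MP_16d9f2_an
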