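import Mathlib
import Pool.Agent.P.MP_16d9f2_an.Wcd

/-!
Weakly countably determined spaces of density at most continuum embed into bounded sequences with
distortion three.
-/

set_option autoImplicit false

namespace Pool.Agent.P.MP_16d9f2_an

open Set Cardinal Filter Topology

variable {X : Type} [NormedAddCommGroup X] [NormedSpace ℝ X] {N : Type}

theorem decomp_of_fam (hX : ∀ Q : X →L[ℝ] X, (∀ x, Q (Q x) = Q x) → Fam Q) (κ : Cardinal.{0}) :
    ∀ (Q : X →L[ℝ] X), (∀ x, Q (Q x) = Q x) → ∀ (D : Set X), (∀ d ∈ D, Q d = d) →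
      (∀ x, Q x ∈ closure D) → #D = κ → κ ≤ 𝔠 → ∃ 𝓓, IsDecomp Q 𝓓 := by
  induction κ using WellFoundedLT.induction with
  | ind κ ih =>
  intro Q hQ D hD1 hD2 hDκ hκc
  by_cases hcount : κ ≤ ℵ₀
  · exact decomp_of_countable Q hQ D hD1 hD2 (le_aleph0_iff_set_countable.1 (hDκ ▸ hcount))
  push Not at hcount
  obtain ⟨n1, M, P, hn1, hmono, hMd, hMn, hMcard, hMlim, hP⟩ := hX Q hQ
  let J := κ.ord.ToType
  have hJ : #J = #D := by simp [J, hDκ]
  obtain ⟨e0⟩ := Cardinal.eq.1 hJ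
  let e : J → X := fun α => e0 α
  have heD : ∀ (U : Set J), ∀ d ∈ e '' U, Q d = d := by
    rintro U _ ⟨α, _, rfl⟩
    exact hD1 _ (e0 α).2
  have hfixM := fun U => (hP _ (heD U)).1
  have hP1 := fun U => (hP _ (heD U)).2.1
  have hP2 := fun U => (hP _ (heD U)).2.2.1
  have hP3 := fun U => (hP _ (heD U)).2.2.2.1
  have hP4 := fun U => (hP _ (heD U)).2.2.2.2
  -- commutation relations
  have hc1 : ∀ U V : Set J, U ⊆ V → ∀ x, P (e '' V) (P (e '' U) x) = P (e '' U) x := by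
    intro U V h x
    exact hP3 V _ (closure_mono (image_mono (hmono _ _ (image_mono h))) (hP1 U x))
  have hc2 : ∀ U V : Set J, U ⊆ V → ∀ x, P (e '' U) (P (e '' V) x) = P (e '' U) x := by
    intro U V h x
    have := hP4 U (P (e '' V) x - x) fun a ha => by
      rw [map_sub, hP2 V x a (hmono _ _ (image_mono h) ha), sub_self]
    rwa [map_sub, sub_eq_zero] at this
  have hc3 : ∀ U : Set J, ∀ x, Q (P (e '' U) x) = P (e '' U) x := by
    intro U x
    have hcl : IsClosed {y : X | Q y = y} := isClosed_eq Q.continuous continuous_id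
    refine hcl.closure_subset_iff.2 ?_ (hP1 U x)
    rintro _ ⟨a, ha, rfl⟩
    exact (hfixM U a ha).1
  have hc4 : ∀ U : Set J, ∀ x, P (e '' U) (Q x) = P (e '' U) x := by
    intro U x
    have := hP4 U (Q x - x) fun a ha => by rw [map_sub, (hfixM U a ha).2, sub_self]
    rwa [map_sub, sub_eq_zero] at this
  let R : J → X →L[ℝ] X := fun α => P (e '' Iic α) - P (e '' Iio α)
  have hR : ∀ α x, R α x = P (e '' Iic α) x - P (e '' Iio α) x := fun α x => rfl
  have hRP : ∀ α x, R α (P (e '' Iic α) x) = R α x := by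
    intro α x
    rw [hR, hR, hc1 _ _ subset_rfl, hc2 _ _ Iio_subset_Iic_self]
  have hRR : ∀ α x, R α (R α x) = R α x := by
    intro α x
    rw [hR α x, map_sub, hRP, hR α (P (e '' Iio α) x), hc1 _ _ Iio_subset_Iic_self,
      hc1 _ _ subset_rfl, sub_self, sub_zero, hR]
  have hRorth : ∀ α β, α ≠ β → ∀ x, R α (R β x) = 0 := by
    intro α β h x
    rcases lt_or_gt_of_ne h with h | h
    · have h1 : Iic α ⊆ Iio β := Iic_subset_Iio.2 h
      have h2 : Iic α ⊆ Iic β := Iic_subset_Iic.2 h.le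
      rw [hR, hR, map_sub, map_sub, hc2 _ _ h1, hc2 _ _ h2,
        hc2 _ _ (Iio_subset_Iic_self.trans h1), hc2 _ _ (Iio_subset_Iic_self.trans h2)]
      simp
    · have h1 : Iic β ⊆ Iio α := Iic_subset_Iio.2 h
      have h2 : Iic β ⊆ Iic α := Iic_subset_Iic.2 h.le
      rw [hR, hR, map_sub, map_sub, hc1 _ _ h1, hc1 _ _ h2,
        hc1 _ _ (Iio_subset_Iic_self.trans h1), hc1 _ _ (Iio_subset_Iic_self.trans h2)]
      simp
  have hpieces : ∀ α, ∃ 𝓓, IsDecomp (R α) 𝓓 := by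
    intro α
    have hlt : #(R α '' (Prod.fst '' M (e '' Iic α))) < κ := by
      have h1 : #(Iio α) < κ := by simpa [J] using mk_Iio_lt α (by simp [J])
      have h2 : #(Iic α) ≤ max #(Iio α) ℵ₀ := by
        rw [← Iio_insert]
        refine mk_insert_le.trans ?_
        exact add_le_of_le (le_max_right _ _) (le_max_left _ _)
          (one_le_aleph0.trans (le_max_right _ _))
      refine lt_of_le_of_lt ?_ (max_lt h1 hcount)
      refine mk_image_le.trans (mk_image_le.trans ?_)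
      exact hMcard _ _ (le_max_right _ _) (mk_image_le.trans h2)
    refine ih _ hlt (R α) (hRR α) _ ?_ ?_ rfl (hlt.le.trans hκc)
    · rintro _ ⟨y, _, rfl⟩
      exact hRR α y
    · intro x
      rw [← hRP]
      exact image_closure_subset_closure_image (R α).continuous ⟨_, hP1 _ x, rfl⟩
  choose 𝓠 h𝓠 using hpieces
  refine ⟨⋃ α, 𝓠 α, ?_, ?_, ?_, ?_, ?_, ?_, ?_, ?_⟩
  · intro p hp
    obtain ⟨α, hα⟩ := mem_iUnion.1 hp
    exact (h𝓠 α).count₁ p hα
  · intro p hp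
    obtain ⟨α, hα⟩ := mem_iUnion.1 hp
    exact (h𝓠 α).count₂ p hα
  · intro p hp x hx
    obtain ⟨α, hα⟩ := mem_iUnion.1 hp
    rw [← (h𝓠 α).fix₁ p hα x hx, hR, map_sub, hc3, hc3]
  · intro p hp φ hφ x
    obtain ⟨α, hα⟩ := mem_iUnion.1 hp
    rw [← (h𝓠 α).fix₂ p hα φ hφ (Q x), ← (h𝓠 α).fix₂ p hα φ hφ x, hR, hR, hc4, hc4]
  · intro p hp p' hp' hne φ hφ x hx
    obtain ⟨α, hα⟩ := mem_iUnion.1 hp
    obtain ⟨β, hβ⟩ := mem_iUnion.1 hp'
    by_cases h : α = β
    · subst h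
      exact (h𝓠 α).orth p hα p' hβ hne φ hφ x hx
    · rw [← (h𝓠 β).fix₁ p' hβ x hx, ← (h𝓠 α).fix₂ p hα φ hφ, hRorth α β h, map_zero]
  · set Y : Submodule ℝ X := (Submodule.span ℝ (⋃ p ∈ ⋃ α, 𝓠 α, p.1)).topologicalClosure with hY
    have hYc : IsClosed (Y : Set X) := Submodule.isClosed_topologicalClosure _
    have hRY : ∀ α x, R α x ∈ Y := by
      intro α x
      refine closure_mono ?_ ((h𝓠 α).dense x)
      refine Submodule.span_mono ?_
      exact biUnion_subset_biUnion_left (subset_iUnion 𝓠 α)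
    have hPY : ∀ α x, P (e '' Iic α) x ∈ Y := by
      intro α
      induction α using WellFoundedLT.induction with
      | ind α ihα =>
      intro x
      have h1 : P (e '' Iio α) x ∈ Y := by
        refine hYc.closure_subset_iff.2 ?_ (hP1 _ x)
        rintro _ ⟨a, ha, rfl⟩
        rcases hMlim J e α a ha with rfl | ⟨β, hβ, ha'⟩
        · exact Y.zero_mem
        · have := ihα β hβ a.1
          rwa [hP3 _ _ (subset_closure ⟨a, ha', rfl⟩)] at this
      have := Y.add_mem (hRY α x) h1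
      rwa [hR, sub_add_cancel] at this
    intro x
    refine hYc.closure_subset_iff.2 ?_ (hD2 x)
    intro d hd
    have hd' : e (e0.symm ⟨d, hd⟩) = d := by simp [e]
    have := hPY (e0.symm ⟨d, hd⟩) d
    rwa [hP3 _ _ (subset_closure ⟨(d, 0), hMd _ _ ⟨_, mem_Iic.2 le_rfl, hd'⟩, rfl⟩)] at this
  · intro x hx
    have hRx : ∀ α, R α x = 0 := fun α =>
      (h𝓠 α).total x fun p hp => hx p (mem_iUnion.2 ⟨α, hp⟩)
    have hPx : ∀ α, P (e '' Iic α) x = 0 := by
      intro α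
      induction α using WellFoundedLT.induction with
      | ind α ihα =>
      have h1 : P (e '' Iio α) x = 0 := by
        refine hP4 _ _ fun a ha => ?_
        rcases hMlim J e α a ha with rfl | ⟨β, hβ, ha'⟩
        · simp
        · rw [← hP2 _ x a ha', ihα β hβ, map_zero]
      have := hRx α
      rwa [hR, h1, sub_zero] at this
    refine eq_zero_of_normers hn1 (hD2 x) fun d hd => ?_
    have hd' : e (e0.symm ⟨d, hd⟩) = d := by simp [e]
    obtain ⟨a, ha, ha2⟩ := hMn (e '' Iic (e0.symm ⟨d, hd⟩)) d ⟨_, mem_Iic.2 le_rfl, hd'⟩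
    have := hP2 _ x a ha
    rw [hPx, map_zero, ha2] at this
    exact this.symm
  · refine mk_iUnion_le_sum_mk.trans ?_
    refine (sum_le_sum _ (fun _ => 𝔠) fun α => (h𝓠 α).card).trans ?_
    rw [sum_const', hJ, hDκ]
    exact (mul_le_mul' hκc le_rfl).trans (mul_eq_self aleph0_le_continuum).le

/-- Only finitely many pieces are large on a suitable set of the family. -/
lemma WSys.finite_large {K : N → Set X} (hK : WSys K) {ι : Type} (e : ι → X)
    (F : Set (StrongDual ℝ X)) (hF : ∀ f ∈ F, {i | f (e i) ≠ 0}.Finite)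
    (htot : ∀ y, (∀ f ∈ F, f y = 0) → y = 0) (x : X) (φ : StrongDual ℝ X) {η : ℝ} (hη : 0 < η) :
    ∃ n, x ∈ K n ∧ {i | e i ∈ K n ∧ η ≤ |φ (e i)|}.Finite := by
  by_contra h
  push Not at h
  let Z : {n // x ∈ K n} → Set ι := fun n => {i | e i ∈ K n.1 ∧ η ≤ |φ (e i)|}
  obtain ⟨n0, hn0⟩ := hK.top
  have hx0 : x ∈ K n0 := hn0 ▸ mem_univ x
  have : Nonempty {n // x ∈ K n} := ⟨⟨n0, hx0⟩⟩
  have hdir : Directed (· ≥ ·) fun n => cofinite ⊓ 𝓟 (Z n) := by
    rintro ⟨n, hn⟩ ⟨n', hn'⟩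
    obtain ⟨n'', h''⟩ := hK.inter n n'
    refine ⟨⟨n'', h'' ▸ ⟨hn, hn'⟩⟩, inf_le_inf_left _ (principal_mono.2 fun i hi => ⟨?_, hi.2⟩),
      inf_le_inf_left _ (principal_mono.2 fun i hi => ⟨?_, hi.2⟩)⟩
    · exact (h'' ▸ hi.1 : e i ∈ K n ∩ K n').1
    · exact (h'' ▸ hi.1 : e i ∈ K n ∩ K n').2
  have hne := iInf_neBot_of_directed' hdir fun n => cofinite_inf_principal_neBot_iff.2 (h n.1 n.2)
  have hZ : ∀ n, Z n ∈ ⨅ n, cofinite ⊓ 𝓟 (Z n) := fun n =>
    mem_iInf_of_mem n (mem_inf_of_right (mem_principal_self _))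
  obtain ⟨y, hy⟩ := hK.lim x (map e (⨅ n, cofinite ⊓ 𝓟 (Z n))) inferInstance fun n hn =>
    mem_map.2 (mem_of_superset (hZ ⟨n, hn⟩) fun i hi => hi.1)
  have h0 : y = 0 := htot y fun f hf => hy f {0} isClosed_singleton
    (mem_iInf_of_mem ⟨n0, hx0⟩ (mem_inf_of_left (hF f hf)))
  have := hy φ {r | η ≤ |r|} (isClosed_le continuous_const continuous_abs)
    (mem_map.2 (mem_of_superset (hZ ⟨n0, hx0⟩) fun i hi => hi.2))
  rw [h0, map_zero, mem_ofPred, abs_zero] at this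
  exact absurd this (not_le.2 hη)

theorem WSys.embed [CompleteSpace X] [Countable N] {K : N → Set X} (hK : WSys K) (D : Set X)
    (hD : Dense D) (hc : #D ≤ 𝔠) : ∃ f : X → lp (fun _ : ℕ => ℝ) ⊤,
      ∀ x y, dist x y ≤ dist (f x) (f y) ∧ dist (f x) (f y) ≤ 3 * dist x y := by
  obtain ⟨𝓓, h𝓓⟩ := decomp_of_fam hK.fam _ (ContinuousLinearMap.id ℝ X) (fun _ => rfl) D
    (fun _ _ => rfl) (fun x => hD x) rfl hc
  choose e he using fun p : 𝓓 =>
    ((h𝓓.count₁ p p.2).insert 0).exists_eq_range (insert_nonempty _ _)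
  obtain ⟨code⟩ := (Cardinal.le_def 𝓓 (ℕ → Bool)).1 (by simpa using h𝓓.card)
  obtain ⟨cut, hcut⟩ := exists_cut code code.injective
  obtain ⟨n1, -, hn1⟩ := exists_n1 (X := X)
  refine (embed_master (fun γ : 𝓓 × ℕ => e γ.1 γ.2) ?_ n1 1 zero_le_one
    (fun x => ⟨(hn1 x).1, by rw [one_mul, (hn1 x).2]⟩)
    (fun c : N × ℕ × ℕ × List Bool =>
      {γ | γ.2 = c.2.1 ∧ e γ.1 γ.2 ∈ K c.1 ∧ cut c.2.2.1 γ.1 = c.2.2.2}) ?_).imp
    fun f hf x y => ⟨by simpa using (hf x y).1, by convert (hf x y).2 using 2; norm_num⟩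
  · intro x
    refine closure_mono (Submodule.span_mono fun y hy => ?_) (h𝓓.dense x)
    obtain ⟨p, hp, hy⟩ := mem_iUnion₂.1 hy
    obtain ⟨m, rfl⟩ : y ∈ range (e ⟨p, hp⟩) := he ⟨p, hp⟩ ▸ mem_insert_of_mem _ hy
    exact ⟨(⟨p, hp⟩, m), rfl⟩
  · rintro x η hη ⟨p, m⟩
    obtain ⟨n, hn, hfin⟩ := hK.finite_large (fun i => e i m) (⋃ q ∈ 𝓓, q.2) (fun g hg => by
      obtain ⟨q, hq, hg⟩ := mem_iUnion₂.1 hg
      refine (finite_singleton ⟨q, hq⟩).subset fun i hi => ?_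
      by_contra hne
      rcases (he i ▸ mem_range_self m : e i m ∈ insert 0 i.1.1) with h | h
      · exact hi (by simp [h])
      · exact hi (h𝓓.orth q hq i i.2 (fun h => hne (Subtype.ext h.symm)) g hg _ h))
      (fun y hy => h𝓓.total y fun q hq g hg => hy g (mem_biUnion hq hg)) (e p m) (n1 x) hη
    obtain ⟨L, hL⟩ := hcut 1 (fun _ => p) _ hfin
    refine ⟨(n, m, L, cut L p), ⟨rfl, hn, rfl⟩, ?_⟩
    rintro ⟨i, _⟩ ⟨rfl, h1, h2⟩ hne
    by_contra h3
    exact hne (Prod.ext (hL 0 i ⟨h1, (not_le.1 h3).le⟩ h2) rfl)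

variable (X) in
/-- The canonical map into the bidual with its weak-star topology. -/
noncomputable def bid (x : X) : WeakDual ℝ (StrongDual ℝ X) :=
  StrongDual.toWeakDual (NormedSpace.inclusionInDoubleDual ℝ X x)

variable (X) in
/-- Weakly countably determined: countably many weak-star compact subsets of the bidual separate
the points of the space from the other points of the bidual. -/
def WCD : Prop :=
  ∃ K : ℕ → Set (WeakDual ℝ (StrongDual ℝ X)), (∀ n, IsCompact (K n)) ∧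
    ∀ (x : X) (u : WeakDual ℝ (StrongDual ℝ X)), u ∉ range (bid X) → ∃ n, bid X x ∈ K n ∧ u ∉ K n

lemma isCompact_ball (R : ℝ) :
    IsCompact (WeakDual.toStrongDual ⁻¹' Metric.closedBall (0 : StrongDual ℝ (StrongDual ℝ X)) R) :=
  WeakDual.isCompact_closedBall _ _

lemma bid_mem (x : X) : ∃ R : ℕ,
    bid X x ∈ WeakDual.toStrongDual ⁻¹' Metric.closedBall (0 : StrongDual ℝ (StrongDual ℝ X)) R := by
  obtain ⟨R, hR⟩ := exists_nat_ge ‖NormedSpace.inclusionInDoubleDual ℝ X x‖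
  exact ⟨R, (dist_zero_right (NormedSpace.inclusionInDoubleDual ℝ X x)).trans_le hR⟩

lemma wcd_of_reflexive (hX : Function.Surjective (NormedSpace.inclusionInDoubleDual ℝ X)) :
    WCD X := by
  refine ⟨fun _ => ∅, fun _ => isCompact_empty, fun x u hu => absurd ?_ hu⟩
  obtain ⟨y, hy⟩ := hX (WeakDual.toStrongDual u)
  exact ⟨y, by rw [bid, hy]; rfl⟩

lemma WCD.sys (h : WCD X) : ∃ K : Finset (ℕ ⊕ ℕ) → Set X, WSys K := by
  classical
  obtain ⟨K, hK1, hK2⟩ := h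
  let K' : ℕ ⊕ ℕ → Set (WeakDual ℝ (StrongDual ℝ X)) := Sum.elim K fun R =>
    WeakDual.toStrongDual ⁻¹' Metric.closedBall 0 R
  refine ⟨fun s => ⋂ i ∈ s, bid X ⁻¹' K' i, ⟨∅, by simp⟩,
    fun s s' => ⟨s ∪ s', Finset.set_biInter_inter _ _ _⟩, fun x l hl h => ?_⟩
  have h' : ∀ i, bid X x ∈ K' i → K' i ∈ map (bid X) (Ultrafilter.of l : Filter X) := fun i hi =>
    Ultrafilter.of_le l (by simpa using h {i} (by simpa using hi))
  obtain ⟨R, hR⟩ := bid_mem x
  obtain ⟨u, -, hu⟩ := (isCompact_ball (X := X) R).ultrafilter_le_nhds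
    ((Ultrafilter.of l).map (bid X)) (le_principal_iff.2 (h' (.inr R) hR))
  obtain ⟨y, rfl⟩ : u ∈ range (bid X) := by
    by_contra hn
    obtain ⟨n, h1, h2⟩ := hK2 x u hn
    exact h2 ((hK1 n).isClosed.mem_of_tendsto (f := bid X) (b := ↑(Ultrafilter.of l)) hu
      (h' (.inl n) h1))
  exact ⟨y, fun φ C hC hφ => hC.mem_of_tendsto (f := φ) (b := ↑(Ultrafilter.of l))
    (((WeakDual.eval_continuous φ).tendsto _).comp hu) (Ultrafilter.of_le l hφ)⟩

theorem WCD.embed [CompleteSpace X] (h : WCD X) (D : Set X) (hD : Dense D) (hc : #D ≤ 𝔠) :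
    ∃ f : X → lp (fun _ : ℕ => ℝ) ⊤,
      ∀ x y, dist x y ≤ dist (f x) (f y) ∧ dist (f x) (f y) ≤ 3 * dist x y := by
  obtain ⟨K, hK⟩ := h.sys
  exact hK.embed D hD hc

end Pool.Agent.P.MP_16d9f2_an
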