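import Mathlib
import Pool.Agent.P.MP_16d9f2_an.Wcd2

/-!
A renorming of a Hilbert space of density continuum that does not embed into bounded sequences with
distortion less than three.
-/

set_option autoImplicit false

namespace Pool.Agent.P.MP_16d9f2_an

open Set Cardinal Filter Topology

lemma refl_of_equiv {H X : Type} [NormedAddCommGroup H] [InnerProductSpace ℝ H] [CompleteSpace H]
    [NormedAddCommGroup X] [NormedSpace ℝ X] (i : H →L[ℝ] X) (j : X →L[ℝ] H)
    (h : ∀ x, i (j x) = x) : Function.Surjective (NormedSpace.inclusionInDoubleDual ℝ X) := by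
  intro Ξ
  let T : H →L[ℝ] StrongDual ℝ X := ((ContinuousLinearMap.compL ℝ X H ℝ).flip j).comp (innerSL ℝ)
  obtain ⟨v, hv⟩ := (InnerProductSpace.toDual ℝ H).surjective (Ξ.comp T)
  refine ⟨i v, ContinuousLinearMap.ext fun φ => ?_⟩
  obtain ⟨w, hw⟩ := (InnerProductSpace.toDual ℝ H).surjective (φ.comp i)
  have h1 : T w = φ := ContinuousLinearMap.ext fun x =>
    (DFunLike.congr_fun hw (j x)).trans (congrArg φ (h x))
  have h2 := DFunLike.congr_fun hv w
  have h3 := DFunLike.congr_fun hw v
  simp only [InnerProductSpace.toDual_apply_apply, ContinuousLinearMap.comp_apply, h1] at h2 h3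
  rw [← h2, real_inner_comm, h3]
  rfl

/-- Pairs of points at distance `a` whose mixed distances are at most `b`. -/
lemma le_of_pairs {X : Type} [PseudoMetricSpace X] {Γ : Type} [Uncountable Γ] (x y : Γ → X)
    {a b C : ℝ} (h1 : ∀ γ, a ≤ dist (x γ) (y γ)) (h2 : ∀ γ γ', γ ≠ γ' → dist (x γ) (y γ') ≤ b)
    (hC : 0 ≤ C) (f : X → lp (fun _ : ℕ => ℝ) ⊤)
    (hf : ∀ u v, dist u v ≤ dist (f u) (f v) ∧ dist (f u) (f v) ≤ C * dist u v) : a ≤ C * b := by
  refine le_of_forall_pos_le_add fun ε hε => ?_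
  have h : ∀ γ, ∃ c : ℕ × ℚ, a - ε / 3 ≤ |f (x γ) c.1 - f (y γ) c.1| ∧
      |f (y γ) c.1 - c.2| ≤ ε / 3 := by
    intro γ
    by_cases ha : a - ε / 3 < 0
    · obtain ⟨q, hq⟩ := exists_rat_near (f (y γ) 0) (show 0 < ε / 3 by positivity)
      exact ⟨(0, q), ha.le.trans (abs_nonneg _), hq.le⟩
    by_contra hn
    push Not at hn
    have := lp.norm_le_of_forall_le (f := f (x γ) - f (y γ)) (not_lt.1 ha) fun j => by
      obtain ⟨q, hq⟩ := exists_rat_near (f (y γ) j) (show 0 < ε / 3 by positivity)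
      by_contra h3
      exact absurd (hn (j, q) (not_le.1 h3).le) (not_lt.2 hq.le)
    rw [← dist_eq_norm] at this
    linarith [h1 γ, (hf (x γ) (y γ)).1]
  choose c hc using h
  obtain ⟨γ, γ', e, hne⟩ := Function.not_injective_iff.1 (not_injective_uncountable_countable c)
  have h3 := lp.norm_apply_le_norm ENNReal.top_ne_zero (f (x γ) - f (y γ')) (c γ).1
  rw [← dist_eq_norm (f (x γ))] at h3
  have h4 := (hf (x γ) (y γ')).2.trans (mul_le_mul_of_nonneg_left (h2 γ γ' hne) hC)
  have h5 : |f (x γ) (c γ).1 - f (y γ') (c γ).1| ≤ C * b := h3.trans h4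
  have h6 := hc γ'
  rw [← e] at h6
  have h7 := abs_sub_le (f (x γ) (c γ).1) (f (y γ') (c γ).1) (f (y γ) (c γ).1)
  have h8 := abs_sub_le (f (y γ') (c γ).1) (c γ).2 (f (y γ) (c γ).1)
  rw [abs_sub_comm ((c γ).2 : ℝ)] at h8
  linarith [(hc γ).1, (hc γ).2, h6.2]

/-- The Hilbert space. -/
abbrev HH := lp (fun _ : Option ℝ => ℝ) 2

/-- The space of bounded functions. -/
abbrev LL := lp (fun _ : Option ℝ => ℝ) ⊤

lemma bound_T (h : HH) (i : Option ℝ) : ‖6 * h i - 3 * h none‖ ≤ 9 * ‖h‖ := by
  have h1 := abs_le.1 (lp.norm_apply_le_norm two_ne_zero h i)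
  have h2 := abs_le.1 (lp.norm_apply_le_norm two_ne_zero h none)
  exact abs_le.2 ⟨by linarith, by linarith⟩

/-- The operator whose graph is the space. -/
noncomputable def TT : HH →L[ℝ] LL :=
  LinearMap.mkContinuous
    { toFun := fun h => ⟨fun i => 6 * h i - 3 * h none,
        memℓp_infty ⟨9 * ‖h‖, by rintro _ ⟨i, rfl⟩; exact bound_T h i⟩⟩
      map_add' := fun a b => lp.ext (funext fun i => by
        show 6 * (a i + b i) - 3 * (a none + b none) =
          (6 * a i - 3 * a none) + (6 * b i - 3 * b none)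
        ring)
      map_smul' := fun r a => lp.ext (funext fun i => by simp; ring) } 9
    fun h => lp.norm_le_of_forall_le (by positivity) (bound_T h)

lemma TT_apply (h : HH) (i : Option ℝ) : TT h i = 6 * h i - 3 * h none := rfl

/-- The graph. -/
abbrev XX : Type :=
  (ContinuousLinearMap.snd ℝ HH LL - TT.comp (ContinuousLinearMap.fst ℝ HH LL)).ker

/-- The parametrisation of the graph. -/
noncomputable def gr : HH →L[ℝ] XX :=
  ((ContinuousLinearMap.id ℝ HH).prod TT).codRestrict _ fun h => by simp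

lemma norm_gr (h : HH) : ‖gr h‖ = max ‖h‖ ‖TT h‖ := rfl

lemma gr_fst (x : XX) : gr x.1.1 = x :=
  Subtype.ext (Prod.ext rfl (sub_eq_zero.1 (LinearMap.mem_ker.1 x.2)).symm)

lemma refl_XX : Function.Surjective (NormedSpace.inclusionInDoubleDual ℝ XX) :=
  refl_of_equiv gr ((ContinuousLinearMap.fst ℝ HH LL).comp (Submodule.subtypeL _)) gr_fst

open Classical in
/-- The unit vectors. -/
noncomputable def ee (i : Option ℝ) : HH := lp.single 2 i 1

open Classical in
lemma ee_apply (i j : Option ℝ) : ee i j = if j = i then 1 else 0 := by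
  simp [ee, lp.single_apply, Pi.single_apply]

lemma norm_ee (i : Option ℝ) : ‖ee i‖ = 1 := by simp [ee]

lemma le_dense_XX (D : Set XX) (hD : Dense D) : 𝔠 ≤ #D := by
  choose d hd1 hd2 using fun γ : ℝ => hD.exists_dist_lt (gr (ee (some γ))) one_half_pos
  rw [← mk_real]
  refine mk_le_of_injective (f := fun γ => (⟨d γ, hd1 γ⟩ : D)) fun γ γ' e => by_contra fun hne => ?_
  have h1 := dist_triangle_right (gr (ee (some γ))) (gr (ee (some γ'))) (d γ)
  have h2 := hd2 γ'
  rw [← show d γ = d γ' from congrArg Subtype.val e] at h2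
  have h3 := lp.norm_apply_le_norm two_ne_zero (ee (some γ) - ee (some γ')) (some γ)
  rw [dist_eq_norm, ← map_sub, norm_gr] at h1
  simp [ee_apply, hne] at h3
  linarith [hd2 γ, le_max_left ‖ee (some γ) - ee (some γ')‖ ‖TT (ee (some γ) - ee (some γ'))‖]

lemma exists_dense_XX : ∃ D : Set XX, Dense D ∧ #D = 𝔠 := by
  classical
  have h1 : Dense (range (Finsupp.linearCombination ℝ ee)) := fun h => by
    refine mem_closure_of_tendsto (lp.hasSum_single ENNReal.ofNat_ne_top h)
      (Eventually.of_forall fun s => ?_)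
    refine (LinearMap.range (Finsupp.linearCombination ℝ ee)).sum_mem fun i _ =>
      ⟨Finsupp.single i (h i), ?_⟩
    simp [ee, ← lp.single_smul]
  have h2 : Dense (gr '' range (Finsupp.linearCombination ℝ ee)) :=
    (Function.Surjective.denseRange fun x => ⟨_, gr_fst x⟩).dense_image gr.continuous h1
  refine ⟨_, h2, le_antisymm (mk_image_le.trans (mk_range_le.trans_eq ?_)) (le_dense_XX _ h2)⟩
  simp [mk_real, add_one_eq aleph0_le_continuum]

theorem three_le {C : ℝ} (f : XX → lp (fun _ : ℕ => ℝ) ⊤)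
    (hf : ∀ u v, dist u v ≤ dist (f u) (f v) ∧ dist (f u) (f v) ≤ C * dist u v) : 3 ≤ C := by
  have hC : 0 ≤ C := by
    have h := (hf (gr (ee none)) 0).1.trans (hf _ _).2
    have h' : 1 ≤ dist (gr (ee none)) 0 := by
      rw [dist_zero_right, norm_gr, norm_ee]
      exact le_max_left _ _
    nlinarith
  have := le_of_pairs (fun γ : ℝ => gr (ee none + ee (some γ))) (fun γ => gr (-ee (some γ)))
    (a := 9) (b := 3) (fun γ => ?_) (fun γ γ' h => ?_) hC f hf
  · linarith
  · rw [dist_eq_norm, ← map_sub, norm_gr]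
    refine le_trans (le_trans ?_ (lp.norm_apply_le_norm ENNReal.top_ne_zero _ (some γ)))
      (le_max_right _ _)
    simp [TT_apply, ee_apply]
    norm_num
  · rw [dist_eq_norm, ← map_sub, norm_gr, sub_neg_eq_add]
    refine max_le (norm_add₃_le.trans_eq (by simp [norm_ee]; norm_num))
      (lp.norm_le_of_forall_le (by norm_num) fun i => ?_)
    rw [TT_apply]
    rcases i with _ | δ
    · simp [ee_apply]
      norm_num
    · by_cases h1 : δ = γ
      · simp [ee_apply, h1, h]
        norm_num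
      · by_cases h2 : δ = γ'
        · simp [ee_apply, h2, h.symm]
          norm_num
        · simp [ee_apply, h1, h2]

end Pool.Agent.P.MP_16d9f2_an
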